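import Mathlib
import Pool.Agent.Helper17.FUErgodic

set_option autoImplicit false
open Filter Topology
open scoped ComplexOrder ComplexConjugate InnerProductSpace
open Helper17 Helper17.FU

/-!
A Szego type dichotomy for extreme traces: either the coefficients vanish on all powers of `τ`
or the unit vector is in the closure of the span of the positive powers.
-/

namespace Helper91.TTT

variable {G : Type*} [Group G] {φ : G → ℂ}

/-- the span of the positive powers of `τ` -/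
noncomputable def MM (φ : G → ℂ) (τ : G) : Submodule ℂ (GV φ) :=
  Submodule.span ℂ (Set.range (fun j : ℕ => dl φ (τ ^ (j + 1))))

lemma dl_mem_MM (τ : G) (k : ℤ) (hk : 1 ≤ k) : dl φ (τ ^ k) ∈ MM φ τ := by
  obtain ⟨j, rfl⟩ : ∃ j : ℕ, k = (j : ℤ) + 1 := ⟨(k - 1).toNat, by omega⟩
  refine Submodule.subset_span ⟨j, ?_⟩
  show dl φ (τ ^ (j + 1)) = dl φ (τ ^ ((j : ℤ) + 1))
  congr 1
  exact_mod_cast (zpow_natCast τ (j + 1)).symm

lemma Lm_mem_MM (τ : G) (k : ℤ) (hk : 0 ≤ k) {P : GV φ} (hP : P ∈ MM φ τ) :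
    Lm (τ ^ k) P ∈ MM φ τ := by
  have h : MM φ τ ≤ (MM φ τ).comap (Lm (τ ^ k)) := by
    refine Submodule.span_le.mpr ?_
    rintro _ ⟨j, rfl⟩
    show Lm (τ ^ k) (dl φ (τ ^ (j + 1))) ∈ MM φ τ
    rw [Lm_dl]
    have : τ ^ k * τ ^ (j + 1) = τ ^ (k + ((j : ℤ) + 1)) := by
      rw [zpow_add]; congr 1
      exact_mod_cast (zpow_natCast τ (j + 1)).symm
    rw [this]
    exact dl_mem_MM τ _ (by omega)
  exact h hP

/-- near minimisers are almost orthogonal to the subspace -/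
lemma near_min [Fact (PD φ)] {τ : G} {c η : ℝ} {g : GV φ}
    (hmin : ∀ Q ∈ MM φ τ, c ≤ ‖g - Q‖ ^ 2) (hg : ‖g‖ ^ 2 ≤ c + η) {Q : GV φ}
    (hQ : Q ∈ MM φ τ) : ‖⟪g, Q⟫_ℂ‖ ^ 2 ≤ η * ‖Q‖ ^ 2 := by
  rcases eq_or_ne (‖Q‖) 0 with h0 | h0
  · have := norm_inner_le_norm (𝕜 := ℂ) g Q
    rw [h0, mul_zero] at this
    have h1 : ‖⟪g, Q⟫_ℂ‖ = 0 := le_antisymm this (norm_nonneg _)
    rw [h1, h0]; simp
  · set s : ℂ := ⟪Q, g⟫_ℂ / ((‖Q‖ ^ 2 : ℝ) : ℂ) with hs
    have h1 := hmin (s • Q) (Submodule.smul_mem _ _ hQ)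
    have h2 : ‖g - s • Q‖ ^ 2 = ‖g‖ ^ 2 - ‖⟪g, Q⟫_ℂ‖ ^ 2 / ‖Q‖ ^ 2 := by
      rw [norm_sub_sq (𝕜 := ℂ), inner_smul_right, norm_smul]
      have h3 : s * ⟪g, Q⟫_ℂ = ((‖⟪g, Q⟫_ℂ‖ ^ 2 / ‖Q‖ ^ 2 : ℝ) : ℂ) := by
        rw [hs, ← inner_conj_symm Q g, div_mul_eq_mul_div, Complex.conj_mul']
        push_cast; ring
      have h4 : ‖s‖ = ‖⟪g, Q⟫_ℂ‖ / ‖Q‖ ^ 2 := by
        rw [hs, norm_div, norm_inner_symm]
        congr 1
        rw [Complex.norm_real, Real.norm_eq_abs, abs_of_nonneg (by positivity)]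
      rw [h3, h4]
      have h5 : RCLike.re (((‖⟪g, Q⟫_ℂ‖ ^ 2 / ‖Q‖ ^ 2 : ℝ) : ℂ)) =
          ‖⟪g, Q⟫_ℂ‖ ^ 2 / ‖Q‖ ^ 2 := Complex.ofReal_re _
      rw [h5]
      field_simp
      ring
    rw [h2] at h1
    have h6 : ‖⟪g, Q⟫_ℂ‖ ^ 2 / ‖Q‖ ^ 2 ≤ η := by linarith
    have h7 : 0 < ‖Q‖ ^ 2 := by positivity
    exact (div_le_iff₀ h7).mp h6

/-- multiplication by a fixed polynomial is bounded -/
lemma mul_bounded [Fact (PD φ)] (τ : G) {g : GV φ}
    (hg : g ∈ Submodule.span ℂ (Set.range (fun k : ℤ => dl φ (τ ^ k)))) :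
    ∃ K : ℝ, 0 ≤ K ∧ ∀ {ι : Type} (s : Finset ι) (x : ι → ℂ) (e : ι → ℤ),
      ‖∑ i ∈ s, x i • Lm (τ ^ (e i)) g‖ ≤ K * ‖∑ i ∈ s, x i • dl φ (τ ^ (e i))‖ := by
  refine Submodule.span_induction (p := fun g _ => ∃ K : ℝ, 0 ≤ K ∧
    ∀ {ι : Type} (s : Finset ι) (x : ι → ℂ) (e : ι → ℤ),
      ‖∑ i ∈ s, x i • Lm (τ ^ (e i)) g‖ ≤ K * ‖∑ i ∈ s, x i • dl φ (τ ^ (e i))‖) ?_ ?_ ?_ ?_ hg
  · rintro _ ⟨k, rfl⟩
    refine ⟨1, zero_le_one, fun s x e => ?_⟩
    have : ∑ i ∈ s, x i • Lm (τ ^ (e i)) (dl φ (τ ^ k)) =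
        Lm (τ ^ k) (∑ i ∈ s, x i • dl φ (τ ^ (e i))) := by
      rw [map_sum]
      refine Finset.sum_congr rfl (fun i _ => ?_)
      rw [map_smul, Lm_dl, Lm_dl, ← zpow_add, ← zpow_add, add_comm]
    rw [this, norm_Lm, one_mul]
  · exact ⟨0, le_rfl, fun s x e => by simp⟩
  · rintro a b _ _ ⟨K, hK, ha⟩ ⟨K', hK', hb⟩
    refine ⟨K + K', by linarith, fun s x e => ?_⟩
    have : ∑ i ∈ s, x i • Lm (τ ^ (e i)) (a + b) =
        ∑ i ∈ s, x i • Lm (τ ^ (e i)) a + ∑ i ∈ s, x i • Lm (τ ^ (e i)) b := by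
      rw [← Finset.sum_add_distrib]
      refine Finset.sum_congr rfl (fun i _ => ?_)
      rw [map_add, smul_add]
    rw [this, add_mul]
    exact (norm_add_le _ _).trans (add_le_add (ha s x e) (hb s x e))
  · rintro c a _ ⟨K, hK, ha⟩
    refine ⟨‖c‖ * K, by positivity, fun s x e => ?_⟩
    have : ∑ i ∈ s, x i • Lm (τ ^ (e i)) (c • a) = c • ∑ i ∈ s, x i • Lm (τ ^ (e i)) a := by
      rw [Finset.smul_sum]
      refine Finset.sum_congr rfl (fun i _ => ?_)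
      rw [map_smul, smul_comm]
    rw [this, norm_smul, mul_assoc]
    exact mul_le_mul_of_nonneg_left (ha s x e) (norm_nonneg _)

/-- lower bound for products with an almost minimiser -/
lemma prod_lower [Fact (PD φ)] {τ : G} {c θ : ℝ} (hθ : 0 ≤ θ) {g : GV φ}
    (hc : c ≤ ‖g‖ ^ 2) (hoff : ∀ k : ℤ, k ≠ 0 → ‖⟪g, Lm (τ ^ k) g⟫_ℂ‖ ≤ θ)
    {ι : Type} [DecidableEq ι] (s : Finset ι) (x : ι → ℂ) (e : ι → ℤ)
    (he : ∀ i ∈ s, ∀ j ∈ s, e i = e j → i = j) :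
    c * ∑ i ∈ s, ‖x i‖ ^ 2 - θ * (∑ i ∈ s, ‖x i‖) ^ 2 ≤
      ‖∑ i ∈ s, x i • Lm (τ ^ (e i)) g‖ ^ 2 := by
  have h1 : ‖∑ i ∈ s, x i • Lm (τ ^ (e i)) g‖ ^ 2 =
      (∑ i ∈ s, ∑ j ∈ s, conj (x i) * x j * ⟪g, Lm (τ ^ (e j - e i)) g⟫_ℂ).re := by
    have h0 := inner_self_eq_norm_sq (𝕜 := ℂ) (∑ i ∈ s, x i • Lm (τ ^ (e i)) g)
    rw [← h0, sum_inner]
    show (∑ i ∈ s, ⟪x i • Lm (τ ^ (e i)) g, ∑ j ∈ s, x j • Lm (τ ^ (e j)) g⟫_ℂ).re = _
    congr 1
    refine Finset.sum_congr rfl (fun i _ => ?_)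
    rw [inner_sum]
    refine Finset.sum_congr rfl (fun j _ => ?_)
    rw [inner_smul_left, inner_smul_right, ← mul_assoc]
    congr 1
    rw [← inner_Lm (τ ^ (e i)) g (Lm (τ ^ (e j - e i)) g)]
    congr 1
    have : (Lm (τ ^ (e i)) : GV φ →ₗ[ℂ] GV φ) ∘ₗ (Lm (τ ^ (e j - e i))) = Lm (τ ^ (e j)) := by
      apply ext_dl
      intro h
      rw [LinearMap.comp_apply, Lm_dl, Lm_dl, Lm_dl, ← mul_assoc, ← zpow_add]
      congr 3; ring
    exact (congrArg (fun A : GV φ →ₗ[ℂ] GV φ => A g) this).symm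
  rw [h1, Complex.re_sum]
  have h2 : ∀ i ∈ s, c * ‖x i‖ ^ 2 - θ * (‖x i‖ * ∑ j ∈ s, ‖x j‖) ≤
      (∑ j ∈ s, conj (x i) * x j * ⟪g, Lm (τ ^ (e j - e i)) g⟫_ℂ).re := by
    intro i hi
    rw [Complex.re_sum, ← Finset.add_sum_erase s
      (fun j => (conj (x i) * x j * ⟪g, Lm (τ ^ (e j - e i)) g⟫_ℂ).re) hi]
    rw [sub_self, zpow_zero]
    have h3 : (conj (x i) * x i * ⟪g, Lm 1 g⟫_ℂ).re = ‖x i‖ ^ 2 * ‖g‖ ^ 2 := by
      have h4 : (Lm 1 : GV φ →ₗ[ℂ] GV φ) = LinearMap.id := by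
        apply ext_dl
        intro h
        rw [Lm_dl]; simp
      rw [h4, LinearMap.id_apply, Complex.conj_mul', inner_self_eq_norm_sq_to_K]
      have h5 : ((‖x i‖ : ℂ) ^ 2 * ((‖g‖ : ℝ) : ℂ) ^ 2) = ((‖x i‖ ^ 2 * ‖g‖ ^ 2 : ℝ) : ℂ) := by
        push_cast; ring
      exact (congrArg Complex.re h5).trans (Complex.ofReal_re _)
    rw [h3]
    have h5 : -(θ * (‖x i‖ * ∑ j ∈ s, ‖x j‖)) ≤
        ∑ j ∈ s.erase i, (conj (x i) * x j * ⟪g, Lm (τ ^ (e j - e i)) g⟫_ℂ).re := by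
      have h6 : ∀ j ∈ s.erase i, -(θ * (‖x i‖ * ‖x j‖)) ≤
          (conj (x i) * x j * ⟪g, Lm (τ ^ (e j - e i)) g⟫_ℂ).re := by
        intro j hj
        have hj' := Finset.mem_erase.mp hj
        have hne : e j - e i ≠ 0 := by
          intro h
          exact hj'.1 (he j hj'.2 i hi (by omega))
        have h7 := hoff _ hne
        have h8 : ‖conj (x i) * x j * ⟪g, Lm (τ ^ (e j - e i)) g⟫_ℂ‖ ≤ θ * (‖x i‖ * ‖x j‖) := by
          rw [norm_mul, norm_mul, RCLike.norm_conj]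
          nlinarith [mul_nonneg (norm_nonneg (x i)) (norm_nonneg (x j))]
        have h9 := Complex.abs_re_le_norm (conj (x i) * x j * ⟪g, Lm (τ ^ (e j - e i)) g⟫_ℂ)
        have h10 := (abs_le.mp (h9.trans h8)).1
        exact h10
      calc -(θ * (‖x i‖ * ∑ j ∈ s, ‖x j‖)) ≤ ∑ j ∈ s.erase i, -(θ * (‖x i‖ * ‖x j‖)) := by
            rw [Finset.sum_neg_distrib, neg_le_neg_iff, ← Finset.mul_sum, ← Finset.mul_sum]
            refine mul_le_mul_of_nonneg_left (mul_le_mul_of_nonneg_left ?_ (norm_nonneg _)) hθ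
            exact Finset.sum_le_sum_of_subset_of_nonneg (Finset.erase_subset _ _)
              (fun _ _ _ => norm_nonneg _)
        _ ≤ _ := Finset.sum_le_sum h6
    have h11 : c * ‖x i‖ ^ 2 ≤ ‖x i‖ ^ 2 * ‖g‖ ^ 2 := by
      rw [mul_comm]; exact mul_le_mul_of_nonneg_left hc (by positivity)
    linarith
  calc c * ∑ i ∈ s, ‖x i‖ ^ 2 - θ * (∑ i ∈ s, ‖x i‖) ^ 2
      = ∑ i ∈ s, (c * ‖x i‖ ^ 2 - θ * (‖x i‖ * ∑ j ∈ s, ‖x j‖)) := by
        rw [Finset.sum_sub_distrib, ← Finset.mul_sum, ← Finset.mul_sum, ← Finset.sum_mul, sq]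
    _ ≤ _ := Finset.sum_le_sum h2

/-- the averaged vectors approach the scalar -/
lemma avg_tendsto (hφ : φ ∈ TR G) [Fact (PD φ)] (s2 s3 τ : G)
    (h2 : s2 * τ * s2⁻¹ = τ ^ (2 : ℤ)) (h3 : s3 * τ * s3⁻¹ = τ ^ (3 : ℤ)) (m : ℤ)
    (hE : Tendsto (fun L => LevelSets.EE (rf φ τ m) L) atTop
      (𝓝 ((‖rf φ τ m 1‖ ^ 2 : ℝ) : ℂ))) :
    Tendsto (fun L : ℕ => ‖(1 / (L : ℂ) ^ 2) • (∑ p : Fin L × Fin L,
      dl φ (τ ^ (m * LevelSets.uu p))) - φ (τ ^ m) • dl φ 1‖ ^ 2) atTop (𝓝 0) := by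
  have hφ1 : φ 1 = 1 := hφ.1
  have hφc : ∀ g h : G, φ (h * g * h⁻¹) = φ g := hφ.2.1
  have hr1 : rf φ τ m 1 = φ (τ ^ m) := by unfold rf; rw [mul_one]
  rw [hr1] at hE
  set r := φ (τ ^ m) with hr
  have huu : ∀ {L : ℕ} (p : Fin L × Fin L), φ (τ ^ (m * LevelSets.uu p)) = r := by
    intro L p
    rw [mul_comm, ← conj_vv h2 h3 p m, hφc]
  have hre : Tendsto (fun L => (LevelSets.EE (rf φ τ m) L).re - ‖r‖ ^ 2) atTop (𝓝 0) := by
    have h4 := (Complex.continuous_re.tendsto _).comp hE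
    have h5 := h4.sub_const (‖r‖ ^ 2)
    have h6 : (((‖r‖ ^ 2 : ℝ) : ℂ)).re - ‖r‖ ^ 2 = 0 := by rw [Complex.ofReal_re]; ring
    rw [h6] at h5
    exact h5
  refine hre.congr' ?_
  filter_upwards [eventually_gt_atTop 0] with L hL
  have hLc : (L : ℂ) ≠ 0 := by exact_mod_cast hL.ne'
  set A : GV φ := (1 / (L : ℂ) ^ 2) • (∑ p : Fin L × Fin L, dl φ (τ ^ (m * LevelSets.uu p)))
    with hA
  have hAA : ‖A‖ ^ 2 = (LevelSets.EE (rf φ τ m) L).re := by
    have h0 := inner_self_eq_norm_sq (𝕜 := ℂ) A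
    rw [← h0]
    show (⟪A, A⟫_ℂ).re = _
    congr 1
    rw [hA, inner_smul_left, inner_smul_right, sum_inner]
    unfold LevelSets.EE
    simp only [inner_sum, inner_dl]
    rw [← mul_assoc]
    congr 1
    · simp only [map_div₀, map_one, map_pow, Complex.conj_natCast]
      ring
    · rw [Finset.sum_comm]
      symm
      rw [Fintype.sum_prod_type (f := fun q : (Fin L × Fin L) × (Fin L × Fin L) =>
        rf φ τ m (LevelSets.uu q.1 - LevelSets.uu q.2))]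
      refine Finset.sum_congr rfl (fun p _ => ?_)
      refine Finset.sum_congr rfl (fun q _ => ?_)
      unfold rf
      rw [← zpow_neg, ← zpow_add]
      congr 2
      ring
  have hA1 : ⟪A, dl φ 1⟫_ℂ = conj r := by
    rw [hA, inner_smul_left, sum_inner]
    have e : ∀ p : Fin L × Fin L, ⟪dl φ (τ ^ (m * LevelSets.uu p)), dl φ 1⟫_ℂ = conj r := by
      intro p
      rw [inner_dl, mul_one, pd_herm (Fact.out : PD φ), huu]; rfl
    simp only [e]
    rw [Finset.sum_const, Finset.card_univ, Fintype.card_prod, Fintype.card_fin, nsmul_eq_mul]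
    push_cast
    simp only [map_div₀, map_one, map_pow, Complex.conj_natCast]
    field_simp
  rw [norm_sub_sq (𝕜 := ℂ), hAA, inner_smul_right, hA1, Complex.mul_conj', norm_smul,
    norm_dl hφ1]
  have : RCLike.re ((‖r‖ : ℂ) ^ 2) = ‖r‖ ^ 2 := by
    rw [← Complex.ofReal_pow]; exact Complex.ofReal_re _
  rw [this]
  ring

/-- **Szego alternative**: if the unit vector keeps a positive distance from the span of the
positive powers, the trace vanishes on all powers. -/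
theorem szego_zero (hφ : φ ∈ Set.extremePoints ℝ (TR G)) [Fact (PD φ)] (s2 s3 τ : G)
    (h2 : s2 * τ * s2⁻¹ = τ ^ (2 : ℤ)) (h3 : s3 * τ * s3⁻¹ = τ ^ (3 : ℤ))
    (hE : ∀ m : ℤ, Tendsto (fun L => LevelSets.EE (rf φ τ m) L) atTop
      (𝓝 ((‖rf φ τ m 1‖ ^ 2 : ℝ) : ℂ)))
    {c : ℝ} (hcpos : 0 < c) (hmin : ∀ P ∈ MM φ τ, c ≤ ‖dl φ 1 - P‖ ^ 2)
    (m : ℤ) (hm : m ≠ 0) : φ (τ ^ m) = 0 := by
  classical
  have hφ1 : φ 1 = 1 := hφ.1.1
  set r := φ (τ ^ m) with hr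
  have hr1 : ‖r‖ ≤ 1 := by
    have := pd_bound (Fact.out : PD φ) (τ ^ m)
    rw [hφ1] at this; simpa using this
  set S : Set ℝ := {t | ∃ P ∈ MM φ τ, t = ‖dl φ 1 - P‖ ^ 2} with hS
  have hSne : S.Nonempty := ⟨_, 0, Submodule.zero_mem _, rfl⟩
  have hSb : BddBelow S := ⟨c, by rintro _ ⟨P, hP, rfl⟩; exact hmin P hP⟩
  set c0 := sInf S with hc0
  have hcc0 : c ≤ c0 := le_csInf hSne (by rintro _ ⟨P, hP, rfl⟩; exact hmin P hP)
  have hc0le : ∀ P ∈ MM φ τ, c0 ≤ ‖dl φ 1 - P‖ ^ 2 := fun P hP => csInf_le hSb ⟨P, hP, rfl⟩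
  have hc01 : c0 ≤ 1 := by
    have := hc0le 0 (Submodule.zero_mem _)
    rw [sub_zero, norm_dl hφ1] at this
    simpa using this
  have hlim := avg_tendsto hφ.1 s2 s3 τ h2 h3 m (hE m)
  -- key estimate
  have key : ∀ η : ℝ, 0 < η → η ≤ 1 → c0 * ‖r‖ ^ 2 ≤ Real.sqrt (η * 2) * 4 := by
    intro η hη hη1
    obtain ⟨t, ⟨P, hP, rfl⟩, ht⟩ := exists_lt_of_csInf_lt hSne (show sInf S < c0 + η by linarith)
    set g : GV φ := dl φ 1 - P with hg
    have hg2 : ‖g‖ ^ 2 ≤ c0 + η := ht.le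
    have hgmin : ∀ Q ∈ MM φ τ, c0 ≤ ‖g - Q‖ ^ 2 := by
      intro Q hQ
      rw [hg, sub_sub]
      exact hc0le _ (Submodule.add_mem _ hP hQ)
    have hpos : ∀ k : ℤ, 1 ≤ k → ‖⟪g, Lm (τ ^ k) g⟫_ℂ‖ ≤ Real.sqrt (η * 2) := by
      intro k hk
      have hQ : Lm (τ ^ k) g ∈ MM φ τ := by
        rw [hg, map_sub, Lm_dl, mul_one]
        exact Submodule.sub_mem _ (dl_mem_MM τ k hk) (Lm_mem_MM τ k (by omega) hP)
      have h4 := near_min hgmin hg2 hQ
      rw [norm_Lm] at h4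
      refine Real.le_sqrt_of_sq_le (h4.trans ?_)
      exact mul_le_mul_of_nonneg_left (by linarith) hη.le
    have hoff : ∀ k : ℤ, k ≠ 0 → ‖⟪g, Lm (τ ^ k) g⟫_ℂ‖ ≤ Real.sqrt (η * 2) := by
      intro k hk
      rcases lt_or_gt_of_ne hk with h | h
      · have h5 : ⟪g, Lm (τ ^ k) g⟫_ℂ = ⟪Lm (τ ^ (-k)) g, g⟫_ℂ := by
          rw [← inner_Lm (τ ^ (-k)) g (Lm (τ ^ k) g)]
          congr 1
          have : (Lm (τ ^ (-k)) : GV φ →ₗ[ℂ] GV φ) ∘ₗ (Lm (τ ^ k)) = LinearMap.id := by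
            apply ext_dl
            intro h
            rw [LinearMap.comp_apply, Lm_dl, Lm_dl, ← mul_assoc, ← zpow_add]
            simp
          exact congrArg (fun A : GV φ →ₗ[ℂ] GV φ => A g) this
        rw [h5, norm_inner_symm]
        exact hpos (-k) (by omega)
      · exact hpos k (by omega)
    have hgspan : g ∈ Submodule.span ℂ (Set.range (fun k : ℤ => dl φ (τ ^ k))) := by
      refine Submodule.sub_mem _ ?_ ?_
      · exact Submodule.subset_span ⟨0, by simp⟩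
      · have hle : MM φ τ ≤ Submodule.span ℂ (Set.range (fun k : ℤ => dl φ (τ ^ k))) := by
          refine Submodule.span_mono ?_
          rintro _ ⟨j, rfl⟩
          exact ⟨(j : ℤ) + 1, by
            show dl φ (τ ^ ((j : ℤ) + 1)) = dl φ (τ ^ (j + 1))
            congr 1
            exact_mod_cast zpow_natCast τ (j + 1)⟩
        exact hle hP
    obtain ⟨K, hK, hKb⟩ := mul_bounded τ hgspan
    have hstep : ∀ L : ℕ, 0 < L → c0 * ‖r‖ ^ 2 - Real.sqrt (η * 2) * 4 ≤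
        K ^ 2 * ‖(1 / (L : ℂ) ^ 2) • (∑ p : Fin L × Fin L,
          dl φ (τ ^ (m * LevelSets.uu p))) - r • dl φ 1‖ ^ 2 := by
      intro L hL
      have hLR : (0 : ℝ) < L := by exact_mod_cast hL
      let x : Option (Fin L × Fin L) → ℂ := fun o => match o with
        | none => -r
        | some _ => 1 / (L : ℂ) ^ 2
      let e : Option (Fin L × Fin L) → ℤ := fun o => match o with
        | none => 0
        | some p => m * LevelSets.uu p
      have he : ∀ i ∈ (Finset.univ : Finset (Option (Fin L × Fin L))), ∀ j ∈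
          (Finset.univ : Finset (Option (Fin L × Fin L))), e i = e j → i = j := by
        intro i _ j _ hij
        cases i with
        | none =>
          cases j with
          | none => rfl
          | some q =>
            exfalso
            have h6 : (0 : ℤ) = m * LevelSets.uu q := hij
            have := LevelSets.uu_pos q
            rcases mul_eq_zero.mp h6.symm with h | h
            · exact hm h
            · omega
        | some p =>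
          cases j with
          | none =>
            exfalso
            have h6 : m * LevelSets.uu p = (0 : ℤ) := hij
            have := LevelSets.uu_pos p
            rcases mul_eq_zero.mp h6 with h | h
            · exact hm h
            · omega
          | some q =>
            have h6 : m * LevelSets.uu p = m * LevelSets.uu q := hij
            rw [LevelSets.uu_inj (mul_left_cancel₀ hm h6)]
      have hcg : c0 ≤ ‖g‖ ^ 2 := by
        have h := hgmin 0 (Submodule.zero_mem _)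
        rwa [sub_zero] at h
      have h7 := prod_lower (Real.sqrt_nonneg (η * 2)) hcg hoff Finset.univ x e he
      have h8 := hKb Finset.univ x e
      have hx2 : ‖r‖ ^ 2 ≤ ∑ i, ‖x i‖ ^ 2 := by
        rw [Fintype.sum_option]
        have : ‖x none‖ ^ 2 = ‖r‖ ^ 2 := by show ‖-r‖ ^ 2 = _; rw [norm_neg]
        rw [this]
        have : 0 ≤ ∑ i : Fin L × Fin L, ‖x (some i)‖ ^ 2 := Finset.sum_nonneg (fun _ _ => by positivity)
        linarith
      have hx1 : ∑ i, ‖x i‖ ≤ 2 := by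
        rw [Fintype.sum_option]
        have h9 : ‖x none‖ = ‖r‖ := by show ‖-r‖ = _; rw [norm_neg]
        have h10 : ∀ i : Fin L × Fin L, ‖x (some i)‖ = 1 / (L : ℝ) ^ 2 := by
          intro i
          show ‖1 / (L : ℂ) ^ 2‖ = _
          simp
        rw [h9]
        simp only [h10]
        rw [Finset.sum_const, Finset.card_univ, Fintype.card_prod, Fintype.card_fin, nsmul_eq_mul]
        push_cast
        have : (L : ℝ) * L * (1 / (L : ℝ) ^ 2) = 1 := by field_simp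
        rw [this]; linarith
      have hx0 : 0 ≤ ∑ i, ‖x i‖ := Finset.sum_nonneg (fun _ _ => norm_nonneg _)
      have hsum : ∑ i, x i • dl φ (τ ^ (e i)) = (1 / (L : ℂ) ^ 2) • (∑ p : Fin L × Fin L,
          dl φ (τ ^ (m * LevelSets.uu p))) - r • dl φ 1 := by
        rw [Fintype.sum_option, Finset.smul_sum]
        show (-r) • dl φ (τ ^ (0 : ℤ)) + _ = _
        rw [zpow_zero, neg_smul, neg_add_eq_sub]
      rw [hsum] at h8
      have h11 : ‖∑ i, x i • Lm (τ ^ (e i)) g‖ ^ 2 ≤ (K * ‖(1 / (L : ℂ) ^ 2) •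
          (∑ p : Fin L × Fin L, dl φ (τ ^ (m * LevelSets.uu p))) - r • dl φ 1‖) ^ 2 :=
        pow_le_pow_left₀ (norm_nonneg _) h8 2
      rw [mul_pow] at h11
      have h12 : (∑ i, ‖x i‖) ^ 2 ≤ 4 := by nlinarith
      have h13 : c0 * ‖r‖ ^ 2 ≤ c0 * ∑ i, ‖x i‖ ^ 2 :=
        mul_le_mul_of_nonneg_left hx2 (by linarith)
      have h14 : Real.sqrt (η * 2) * (∑ i, ‖x i‖) ^ 2 ≤ Real.sqrt (η * 2) * 4 :=
        mul_le_mul_of_nonneg_left h12 (Real.sqrt_nonneg _)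
      linarith
    have hlimK := hlim.const_mul (K ^ 2)
    rw [mul_zero] at hlimK
    have h15 : c0 * ‖r‖ ^ 2 - Real.sqrt (η * 2) * 4 ≤ 0 := by
      refine ge_of_tendsto hlimK ?_
      filter_upwards [eventually_gt_atTop 0] with L hL
      exact hstep L hL
    linarith
  -- let η tend to zero
  have hz : c0 * ‖r‖ ^ 2 ≤ 0 := by
    have hcont : Tendsto (fun η : ℝ => Real.sqrt (η * 2) * 4) (𝓝[>] 0) (𝓝 0) := by
      have h16 : Continuous (fun η : ℝ => Real.sqrt (η * 2) * 4) := by fun_prop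
      have h17 := h16.tendsto 0
      simp only [zero_mul, Real.sqrt_zero] at h17
      exact h17.mono_left nhdsWithin_le_nhds
    refine ge_of_tendsto hcont ?_
    filter_upwards [Ioo_mem_nhdsGT (show (0 : ℝ) < 1 by norm_num)] with η hη
    exact key η hη.1 hη.2.le
  have hc0pos : 0 < c0 := lt_of_lt_of_le hcpos hcc0
  have h18 : ‖r‖ ^ 2 ≤ 0 := by
    by_contra h
    push Not at h
    have := mul_pos hc0pos h
    linarith
  have h19 : ‖r‖ = 0 := by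
    have := sq_nonneg ‖r‖
    exact pow_eq_zero_iff (two_ne_zero) |>.mp (le_antisymm h18 this)
  exact norm_eq_zero.mp h19

end Helper91.TTT
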