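import Mathlib
import Pool.Agent.Helper91.TTT.Szego

set_option autoImplicit false
open Filter Topology
open scoped ComplexOrder ComplexConjugate InnerProductSpace
open Helper17 Helper17.FU

/-! Scale free recurrences and coefficients of intermediate size. -/

namespace Helper91.TTT

variable {G : Type*} [Group G] {φ : G → ℂ}

/-- the recurrence property, uniform over all conjugates of `τ` -/
def Recur (φ : G → ℂ) (τ : G) : Prop :=
  ∀ ε : ℝ, 0 < ε → ∃ (N : ℕ) (c : ℕ → ℂ), ∀ g σ : G,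
    ‖φ g - ∑ j ∈ Finset.range N, c j * φ (g * (σ * τ * σ⁻¹) ^ (j + 1))‖ ≤ ε

lemma recur_of_dense [Fact (PD φ)] (hφ1 : φ 1 = 1) (hφc : ∀ g h : G, φ (h * g * h⁻¹) = φ g)
    (τ : G) (h : ∀ ε : ℝ, 0 < ε → ∃ P ∈ MM φ τ, ‖dl φ 1 - P‖ < ε) : Recur φ τ := by
  intro ε hε
  obtain ⟨P, hP, hPε⟩ := h ε hε
  obtain ⟨c, hc⟩ := (Finsupp.mem_span_range_iff_exists_finsupp).mp hP
  set N := c.support.sup id + 1 with hN
  have hsum : P = ∑ j ∈ Finset.range N, c j • dl φ (τ ^ (j + 1)) := by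
    rw [← hc, Finsupp.sum]
    refine Finset.sum_subset ?_ ?_
    · intro j hj
      rw [Finset.mem_range, hN]
      have : id j ≤ c.support.sup id := Finset.le_sup hj
      simp only [id] at this
      omega
    · intro j _ hj
      rw [Finsupp.notMem_support_iff.mp hj, zero_smul]
  refine ⟨N, c, fun g σ => ?_⟩
  have h1 : ‖dl φ 1 - ∑ j ∈ Finset.range N, c j • dl φ ((σ * τ * σ⁻¹) ^ (j + 1))‖ < ε := by
    have h2 : Cm σ (dl φ 1 - P) =
        dl φ 1 - ∑ j ∈ Finset.range N, c j • dl φ ((σ * τ * σ⁻¹) ^ (j + 1)) := by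
      rw [hsum, map_sub, Cm_dl, map_sum]
      congr 1
      · congr 1; group
      · refine Finset.sum_congr rfl (fun j _ => ?_)
        rw [map_smul, Cm_dl, _root_.conj_pow]
    rw [← h2, norm_Cm hφc]
    exact hPε
  have h3 : φ g - ∑ j ∈ Finset.range N, c j * φ (g * (σ * τ * σ⁻¹) ^ (j + 1)) =
      ⟪dl φ g⁻¹, dl φ 1 - ∑ j ∈ Finset.range N, c j • dl φ ((σ * τ * σ⁻¹) ^ (j + 1))⟫_ℂ := by
    rw [inner_sub_right, inner_dl, inner_sum, inv_inv, mul_one]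
    congr 1
    refine Finset.sum_congr rfl (fun j _ => ?_)
    rw [inner_smul_right, inner_dl, inv_inv]
  rw [h3]
  refine (norm_inner_le_norm _ _).trans ?_
  rw [norm_dl hφ1, one_mul]
  exact h1.le

/-- a Bessel type inequality -/
lemma bessel {V : Type*} [SeminormedAddCommGroup V] [InnerProductSpace ℂ V] (v : V)
    (hv : ‖v‖ ≤ 1) {ι : Type*} (s : Finset ι) (e : ι → V) :
    ∑ i ∈ s, ‖⟪v, e i⟫_ℂ‖ ^ 2 ≤ Real.sqrt (∑ i ∈ s, ∑ j ∈ s, ‖⟪e i, e j⟫_ℂ‖ ^ 2) := by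
  set S := ∑ i ∈ s, ‖⟪v, e i⟫_ℂ‖ ^ 2 with hS
  set W := ∑ i ∈ s, ∑ j ∈ s, ‖⟪e i, e j⟫_ℂ‖ ^ 2 with hW
  have hS0 : 0 ≤ S := Finset.sum_nonneg (fun _ _ => by positivity)
  have hW0 : 0 ≤ W := Finset.sum_nonneg (fun _ _ => Finset.sum_nonneg (fun _ _ => by positivity))
  set w : V := ∑ i ∈ s, conj ⟪v, e i⟫_ℂ • e i with hw
  have h1 : ⟪v, w⟫_ℂ = (S : ℂ) := by
    rw [hw, inner_sum, hS]
    push_cast
    refine Finset.sum_congr rfl (fun i _ => ?_)
    rw [inner_smul_right, Complex.conj_mul']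
  have h2 : S ≤ ‖w‖ := by
    have h3 := norm_inner_le_norm (𝕜 := ℂ) v w
    rw [h1, Complex.norm_real, Real.norm_eq_abs, abs_of_nonneg hS0] at h3
    exact h3.trans (by nlinarith [norm_nonneg w])
  have h4 : ‖w‖ ^ 2 ≤ S * Real.sqrt W := by
    have h5 : ‖w‖ ^ 2 ≤ ∑ i ∈ s, ∑ j ∈ s, ‖⟪v, e i⟫_ℂ‖ * ‖⟪v, e j⟫_ℂ‖ * ‖⟪e i, e j⟫_ℂ‖ := by
      have h0 := inner_self_eq_norm_sq (𝕜 := ℂ) w
      rw [← h0]
      refine (RCLike.re_le_norm _).trans ?_
      rw [hw, sum_inner]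
      refine (norm_sum_le _ _).trans (Finset.sum_le_sum (fun i _ => ?_))
      rw [inner_sum]
      refine (norm_sum_le _ _).trans (Finset.sum_le_sum (fun j _ => ?_))
      rw [inner_smul_left, inner_smul_right, norm_mul, norm_mul, RCLike.norm_conj,
        RCLike.norm_conj, RCLike.norm_conj, mul_assoc]
    refine h5.trans ?_
    have h6 : (∑ i ∈ s, ∑ j ∈ s, ‖⟪v, e i⟫_ℂ‖ * ‖⟪v, e j⟫_ℂ‖ * ‖⟪e i, e j⟫_ℂ‖) ^ 2 ≤
        S ^ 2 * W := by
      rw [← Finset.sum_product', hW, ← Finset.sum_product' (f := fun i j => ‖⟪e i, e j⟫_ℂ‖ ^ 2)]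
      refine (Finset.sum_mul_sq_le_sq_mul_sq (s ×ˢ s)
        (fun p => ‖⟪v, e p.1⟫_ℂ‖ * ‖⟪v, e p.2⟫_ℂ‖) (fun p => ‖⟪e p.1, e p.2⟫_ℂ‖)).trans ?_
      refine mul_le_mul_of_nonneg_right (le_of_eq ?_) (Finset.sum_nonneg (fun _ _ => by positivity))
      rw [sq S, hS, Finset.sum_mul_sum, ← Finset.sum_product']
      refine Finset.sum_congr rfl (fun p _ => ?_)
      ring
    have h7 : 0 ≤ S * Real.sqrt W := by positivity
    refine le_of_sq_le_sq ?_ h7 |>.trans le_rfl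
    rw [mul_pow, Real.sq_sqrt hW0]
    exact h6
  have h8 : S ^ 2 ≤ S * Real.sqrt W := (pow_le_pow_left₀ hS0 h2 2).trans h4
  rcases eq_or_lt_of_le hS0 with h | h
  · rw [← h]; exact Real.sqrt_nonneg _
  · rw [sq] at h8
    exact le_of_mul_le_mul_left h8 h

/-- the mean square of the coefficients -/
noncomputable def WW (φ : G → ℂ) (τ : G) (L : ℕ) : ℝ :=
  ∑ i ∈ Finset.range L, ∑ j ∈ Finset.range L, ‖φ (τ ^ ((i : ℤ) - j))‖ ^ 2

lemma bessel_trace [Fact (PD φ)] (hφ1 : φ 1 = 1) (hφc : ∀ g h : G, φ (h * g * h⁻¹) = φ g)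
    (τ g σ : G) (L : ℕ) :
    ∑ j ∈ Finset.range L, ‖φ (g * (σ * τ * σ⁻¹) ^ j)‖ ^ 2 ≤ Real.sqrt (WW φ τ L) := by
  have h := bessel (dl φ g⁻¹) (norm_dl hφ1 _).le (Finset.range L)
    (fun j => dl φ ((σ * τ * σ⁻¹) ^ j))
  simp only [inner_dl, inv_inv] at h
  refine h.trans (Real.sqrt_le_sqrt (le_of_eq ?_))
  unfold WW
  rw [Finset.sum_comm]
  refine Finset.sum_congr rfl (fun i _ => Finset.sum_congr rfl (fun j _ => ?_))
  have e : ((σ * τ * σ⁻¹) ^ j)⁻¹ * (σ * τ * σ⁻¹) ^ i = σ * τ ^ ((i : ℤ) - j) * σ⁻¹ := by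
    rw [_root_.conj_pow, _root_.conj_pow, sub_eq_neg_add, zpow_add, zpow_neg, zpow_natCast, zpow_natCast]
    group
  rw [e, hφc]

/-- coefficients of intermediate size -/
theorem intermediate [Fact (PD φ)] (hφ1 : φ 1 = 1) (hφc : ∀ g h : G, φ (h * g * h⁻¹) = φ g)
    (τ : G) (hR : Recur φ τ)
    (hW : Tendsto (fun L : ℕ => WW φ τ L / (L : ℝ) ^ 2) atTop (𝓝 0)) (ε : ℝ) (hε : 0 < ε) :
    ∃ δ : ℝ, 0 < δ ∧ ∃ L : ℕ, ∀ g σ : G, ε ≤ ‖φ g‖ →
      ∃ j : ℕ, 1 ≤ j ∧ j ≤ L ∧ δ ≤ ‖φ (g * (σ * τ * σ⁻¹) ^ j)‖ ∧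
        ‖φ (g * (σ * τ * σ⁻¹) ^ j)‖ < ε := by
  obtain ⟨N, c, hNc⟩ := hR (ε / 2) (by linarith)
  set C : ℝ := ∑ j ∈ Finset.range N, ‖c j‖ + 1 with hC
  have hCpos : 0 < C := by
    have : 0 ≤ ∑ j ∈ Finset.range N, ‖c j‖ := Finset.sum_nonneg (fun _ _ => norm_nonneg _)
    linarith
  set δ : ℝ := ε / (2 * C) with hδ
  have hδpos : 0 < δ := by positivity
  have hCδ : C * δ = ε / 2 := by rw [hδ]; field_simp
  -- next element
  have hnext : ∀ g σ : G, ε ≤ ‖φ g‖ → ∃ j : ℕ, 1 ≤ j ∧ j ≤ N ∧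
      δ ≤ ‖φ (g * (σ * τ * σ⁻¹) ^ j)‖ := by
    intro g σ hg
    by_contra hcon
    push Not at hcon
    have h1 := hNc g σ
    have h2 : ‖∑ j ∈ Finset.range N, c j * φ (g * (σ * τ * σ⁻¹) ^ (j + 1))‖ ≤ (C - 1) * δ := by
      rw [hC, add_sub_cancel_right, Finset.sum_mul]
      refine (norm_sum_le _ _).trans (Finset.sum_le_sum (fun j hj => ?_))
      rw [norm_mul]
      refine mul_le_mul_of_nonneg_left ?_ (norm_nonneg _)
      exact (hcon (j + 1) (by omega) (by have := Finset.mem_range.mp hj; omega)).le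
    have h3 : ‖φ g‖ ≤ ε / 2 + (C - 1) * δ := by
      have := norm_add_le (φ g - ∑ j ∈ Finset.range N, c j * φ (g * (σ * τ * σ⁻¹) ^ (j + 1)))
        (∑ j ∈ Finset.range N, c j * φ (g * (σ * τ * σ⁻¹) ^ (j + 1)))
      rw [sub_add_cancel] at this
      linarith
    nlinarith
  set M := N + 1 with hM
  have hMpos : (0 : ℝ) < M := by positivity
  obtain ⟨K, hK0, hK⟩ : ∃ K : ℕ, 0 < K ∧ WW φ τ (K * M) / ((K * M : ℕ) : ℝ) ^ 2 <
      (ε ^ 2 / M) ^ 2 := by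
    have hev := hW.eventually (gt_mem_nhds (show (0 : ℝ) < (ε ^ 2 / M) ^ 2 by positivity))
    obtain ⟨L0, hL0⟩ := eventually_atTop.mp hev
    refine ⟨L0 + 1, Nat.succ_pos _, hL0 _ ?_⟩
    calc L0 ≤ (L0 + 1) * 1 := by omega
      _ ≤ (L0 + 1) * M := Nat.mul_le_mul_left _ (by omega)
  refine ⟨δ, hδpos, K * M, fun g σ hg => ?_⟩
  by_contra hcon
  push Not at hcon
  set h := σ * τ * σ⁻¹ with hh
  have hstep : ∀ t : ℕ, t + M ≤ K * M → ∃ j, t ≤ j ∧ j < t + M ∧ ε ≤ ‖φ (g * h ^ j)‖ := by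
    intro t
    induction t with
    | zero => intro _; exact ⟨0, le_rfl, by omega, by simpa using hg⟩
    | succ t ih =>
      intro ht
      obtain ⟨j, h1, h2, h3⟩ := ih (by omega)
      rcases Nat.lt_or_ge t j with hlt | hge
      · exact ⟨j, hlt, by omega, h3⟩
      · have hjt : j = t := le_antisymm hge h1
        obtain ⟨i, h4, h5, h6⟩ := hnext (g * h ^ j) σ h3
        rw [← hh, mul_assoc, ← pow_add] at h6
        exact ⟨j + i, by omega, by omega, hcon (j + i) (by omega) (by omega) h6⟩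
  have hsum : ∀ k : ℕ, k ≤ K → k * ε ^ 2 ≤ ∑ j ∈ Finset.range (k * M), ‖φ (g * h ^ j)‖ ^ 2 := by
    intro k
    induction k with
    | zero => intro _; simp
    | succ k ih =>
      intro hk
      have h1 := ih (by omega)
      have hkM : k * M + M ≤ K * M := by
        calc k * M + M = (k + 1) * M := by ring
          _ ≤ K * M := Nat.mul_le_mul_right _ hk
      obtain ⟨j, h2, h3, h4⟩ := hstep (k * M) hkM
      have e : (k + 1) * M = k * M + M := by ring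
      rw [e, Finset.sum_range_add]
      have h5 : ε ^ 2 ≤ ∑ x ∈ Finset.range M, ‖φ (g * h ^ (k * M + x))‖ ^ 2 := by
        have h6 : ‖φ (g * h ^ (k * M + (j - k * M)))‖ ^ 2 ≤
            ∑ x ∈ Finset.range M, ‖φ (g * h ^ (k * M + x))‖ ^ 2 :=
          Finset.single_le_sum (f := fun x => ‖φ (g * h ^ (k * M + x))‖ ^ 2)
            (fun _ _ => by positivity) (Finset.mem_range.mpr (by omega))
        rw [show k * M + (j - k * M) = j by omega] at h6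
        exact (pow_le_pow_left₀ hε.le h4 2).trans h6
      push_cast
      linarith
  have h1 := hsum K le_rfl
  have h2 := bessel_trace hφ1 hφc τ g σ (K * M)
  rw [← hh] at h2
  have h3 : WW φ τ (K * M) < (K * ε ^ 2) ^ 2 := by
    have hKM : (0 : ℝ) < ((K * M : ℕ) : ℝ) ^ 2 := by positivity
    rw [div_lt_iff₀ hKM] at hK
    refine hK.trans_le (le_of_eq ?_)
    push_cast
    field_simp
  have h4 : Real.sqrt (WW φ τ (K * M)) < K * ε ^ 2 := by
    rw [Real.sqrt_lt' (by positivity)]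
    exact h3
  linarith

end Helper91.TTT
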