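import Mathlib
import Pool.Agent.Helper17.LevelSetsZ

set_option autoImplicit false
open MeasureTheory Filter Topology Helper17
open scoped ComplexOrder ComplexConjugate ENNReal

/-!
Herglotz's theorem on the circle, and uniqueness of measures with given Fourier coefficients.
-/

namespace Helper91.TTT

/-- the circle -/
abbrev Tor := AddCircle (1 : ℝ)

lemma integral_fourier_haar (n : ℤ) :
    ∫ x : Tor, fourier n x ∂AddCircle.haarAddCircle = if n = 0 then 1 else 0 := by
  have h := fourierCoeff_fourier (T := 1) (n := n)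
  have h2 := congrFun h 0
  unfold fourierCoeff at h2
  simp only [neg_zero, fourier_zero, one_smul] at h2
  rw [h2]
  by_cases hn : n = 0
  · subst hn; simp
  · rw [if_neg hn, Pi.single_eq_of_ne (Ne.symm hn)]

/-- uniqueness of finite measures with given Fourier coefficients -/
theorem measure_unique {μ ν : Measure Tor} [IsFiniteMeasure μ] [IsFiniteMeasure ν]
    (h : ∀ n : ℤ, ∫ x, fourier n x ∂μ = ∫ x, fourier n x ∂ν) : μ = ν := by
  have key : ∀ f : C(Tor, ℂ), ∫ x, f x ∂μ = ∫ x, f x ∂ν := by
    intro f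
    have hf : f ∈ (Submodule.span ℂ (Set.range <| @fourier 1)).topologicalClosure := by
      rw [span_fourier_closure_eq_top]; trivial
    have hint : ∀ (ρ : Measure Tor) [IsFiniteMeasure ρ] (g : C(Tor, ℂ)), Integrable g ρ := by
      intro ρ _ g
      exact (BoundedContinuousFunction.mkOfCompact g).integrable ρ
    have hcont : ∀ (ρ : Measure Tor) [IsFiniteMeasure ρ],
        Continuous (fun g : C(Tor, ℂ) => ∫ x, g x ∂ρ) := by
      intro ρ _
      have hL : ∀ g g' : C(Tor, ℂ), dist (∫ x, g x ∂ρ) (∫ x, g' x ∂ρ) ≤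
          (ρ.real Set.univ) * dist g g' := by
        intro g g'
        rw [dist_eq_norm, ← integral_sub (hint ρ g) (hint ρ g')]
        refine (norm_integral_le_of_norm_le_const (C := dist g g') ?_).trans ?_
        · refine Filter.Eventually.of_forall (fun x => ?_)
          rw [← dist_eq_norm]
          exact ContinuousMap.dist_apply_le_dist x
        · rw [mul_comm]
      exact (LipschitzWith.of_dist_le_mul (K := (ρ.real Set.univ).toNNReal) (fun g g' => by
        rw [Real.coe_toNNReal _ measureReal_nonneg]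
        exact hL g g')).continuous
    have hcl : IsClosed {g : C(Tor, ℂ) | ∫ x, g x ∂μ = ∫ x, g x ∂ν} :=
      isClosed_eq (hcont μ) (hcont ν)
    have hsub : (Submodule.span ℂ (Set.range <| @fourier 1) : Set C(Tor, ℂ)) ⊆
        {g : C(Tor, ℂ) | ∫ x, g x ∂μ = ∫ x, g x ∂ν} := by
      intro g hg
      refine Submodule.span_induction (p := fun g _ => ∫ x, g x ∂μ = ∫ x, g x ∂ν) ?_ ?_ ?_ ?_ hg
      · rintro _ ⟨n, rfl⟩
        exact h n
      · simp
      · intro a b _ _ ha hb
        simp only [ContinuousMap.add_apply]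
        rw [integral_add (hint μ a) (hint μ b), integral_add (hint ν a) (hint ν b), ha, hb]
      · intro c a _ ha
        simp only [ContinuousMap.smul_apply]
        rw [integral_smul, integral_smul, ha]
    have := closure_minimal hsub hcl
    exact this hf
  apply ext_of_forall_integral_eq_of_IsFiniteMeasure
  intro f
  have h1 := key ⟨fun x => (f x : ℂ), by fun_prop⟩
  simp only [ContinuousMap.coe_mk] at h1
  rw [integral_complex_ofReal, integral_complex_ofReal] at h1
  exact_mod_cast h1

/-- the Fejer density -/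
noncomputable def fej (f : ℤ → ℂ) (N : ℕ) (x : Tor) : ℂ :=
  (1 / (N : ℂ)) * ∑ i ∈ Finset.Ico (0 : ℤ) N, ∑ j ∈ Finset.Ico (0 : ℤ) N,
    f (i - j) * fourier (j - i) x

lemma fej_nonneg {f : ℤ → ℂ} (hf : LevelSets.PDZ f) (N : ℕ) (x : Tor) : 0 ≤ fej f N x := by
  unfold fej
  have h := hf (Finset.Ico (0 : ℤ) N) (fun i => fourier (-i) x)
  have e : ∀ i j : ℤ, star (fourier (-j) x : ℂ) * fourier (-i) x * f (i - j) =
      f (i - j) * fourier (j - i) x := by
    intro i j
    rw [show star (fourier (-j) x : ℂ) = fourier j x by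
      rw [fourier_neg]; exact Complex.conj_conj _]
    rw [sub_eq_add_neg j i, fourier_add]
    ring
  simp only [e] at h
  have h2 : (0 : ℂ) ≤ 1 / (N : ℂ) := by
    have : (1 / (N : ℂ)) = ((1 / (N : ℝ) : ℝ) : ℂ) := by push_cast; ring
    rw [this, ← Complex.ofReal_zero, Complex.real_le_real]
    positivity
  exact mul_nonneg h2 h

lemma continuous_fej (f : ℤ → ℂ) (N : ℕ) : Continuous (fej f N) := by
  unfold fej
  fun_prop

lemma integral_fej_mul {f : ℤ → ℂ} (N : ℕ) (m : ℤ) :
    ∫ x : Tor, fourier m x * fej f N x ∂AddCircle.haarAddCircle =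
      (((Finset.Ico (0 : ℤ) N ∩ Finset.Ico m (N + m)).card : ℂ) / N) * f m := by
  have e : ∀ x : Tor, fourier m x * fej f N x = (1 / (N : ℂ)) *
      ∑ i ∈ Finset.Ico (0 : ℤ) N, ∑ j ∈ Finset.Ico (0 : ℤ) N,
        f (i - j) * fourier (m + (j - i)) x := by
    intro x
    unfold fej
    rw [mul_left_comm]
    congr 1
    rw [Finset.mul_sum]
    refine Finset.sum_congr rfl (fun i _ => ?_)
    rw [Finset.mul_sum]
    refine Finset.sum_congr rfl (fun j _ => ?_)
    rw [fourier_add]
    ring
  simp only [e]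
  have hint : ∀ (n : ℤ) (a : ℂ), Integrable (fun x : Tor => a * fourier n x)
      AddCircle.haarAddCircle := by
    intro n a
    exact ((BoundedContinuousFunction.mkOfCompact (fourier n : C(Tor, ℂ))).integrable _).const_mul a
  rw [integral_const_mul, integral_finsetSum _ (fun i _ => integrable_finsetSum _
    (fun j _ => hint _ _))]
  simp only [integral_finsetSum _ (fun j _ => hint _ _), integral_const_mul,
    integral_fourier_haar]
  have h1 : ∀ i ∈ Finset.Ico (0 : ℤ) N, ∑ j ∈ Finset.Ico (0 : ℤ) N,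
      f (i - j) * (if m + (j - i) = 0 then (1 : ℂ) else 0) =
      if i ∈ Finset.Ico m (N + m) then f m else 0 := by
    intro i _
    have h2 : ∀ j ∈ Finset.Ico (0 : ℤ) N, f (i - j) * (if m + (j - i) = 0 then (1 : ℂ) else 0) =
        if j = i - m then f m else 0 := by
      intro j _
      by_cases hj : j = i - m
      · rw [if_pos (by omega), if_pos hj, mul_one]; congr 1; omega
      · rw [if_neg (by omega), if_neg hj, mul_zero]
    rw [Finset.sum_congr rfl h2, Finset.sum_ite_eq']
    refine if_congr ?_ rfl rfl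
    simp only [Finset.mem_Ico]
    omega
  rw [Finset.sum_congr rfl h1, ← Finset.sum_filter, Finset.filter_mem_eq_inter, Finset.sum_const,
    nsmul_eq_mul]
  ring

lemma card_tendsto (m : ℤ) : Tendsto (fun N : ℕ =>
    (((Finset.Ico (0 : ℤ) N ∩ Finset.Ico m (N + m)).card : ℂ) / N)) atTop (𝓝 1) := by
  have hb : ∀ N : ℕ, 0 < N → ‖(((Finset.Ico (0 : ℤ) N ∩ Finset.Ico m (N + m)).card : ℂ) / N) - 1‖ ≤
      (m.natAbs : ℝ) / N := by
    intro N hN
    have hNR : (0 : ℝ) < N := by exact_mod_cast hN
    have hNC : (N : ℂ) ≠ 0 := by exact_mod_cast hN.ne'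
    have h1 : (Finset.Ico (0 : ℤ) N ∩ Finset.Ico m (N + m)).card ≤ N := by
      refine (Finset.card_le_card Finset.inter_subset_left).trans ?_
      rw [Int.card_Ico]; simp
    have h2 : N ≤ (Finset.Ico (0 : ℤ) N ∩ Finset.Ico m (N + m)).card + m.natAbs := by
      have h3 : Finset.Ico (0 : ℤ) N ∩ Finset.Ico m (N + m) =
          Finset.Ico (max 0 m) (min N (N + m)) := by
        rw [Finset.Ico_inter_Ico]
      rw [h3, Int.card_Ico]
      omega
    have h4 : (((Finset.Ico (0 : ℤ) N ∩ Finset.Ico m (N + m)).card : ℂ) / N) - 1 =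
        (((((Finset.Ico (0 : ℤ) N ∩ Finset.Ico m (N + m)).card : ℝ) - N) / N : ℝ) : ℂ) := by
      push_cast
      field_simp
    rw [h4, Complex.norm_real, Real.norm_eq_abs, abs_div, abs_of_pos hNR]
    refine div_le_div_of_nonneg_right ?_ hNR.le
    rw [abs_le]
    have h1' : (((Finset.Ico (0 : ℤ) N ∩ Finset.Ico m (N + m)).card : ℕ) : ℝ) ≤ N := by
      exact_mod_cast h1
    have h2' : (N : ℝ) ≤ ((Finset.Ico (0 : ℤ) N ∩ Finset.Ico m (N + m)).card : ℝ) + m.natAbs := by
      exact_mod_cast h2
    have h5 : (0 : ℝ) ≤ m.natAbs := by positivity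
    constructor <;> linarith
  rw [tendsto_iff_norm_sub_tendsto_zero]
  refine squeeze_zero' (Filter.Eventually.of_forall (fun _ => norm_nonneg _)) ?_
    (tendsto_const_div_atTop_nhds_zero_nat (m.natAbs : ℝ))
  filter_upwards [eventually_gt_atTop 0] with N hN
  exact hb N hN

/-- **Herglotz's theorem.** -/
theorem herglotz {f : ℤ → ℂ} (hf : LevelSets.PDZ f) (h0 : f 0 = 1) :
    ∃ μ : Measure Tor, IsProbabilityMeasure μ ∧ ∀ n : ℤ, ∫ x, fourier n x ∂μ = f n := by
  have hreal : ∀ (N : ℕ) (x : Tor), fej f N x = (((fej f N x).re : ℝ) : ℂ) := by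
    intro N x
    have := (Complex.nonneg_iff.mp (fej_nonneg hf N x)).2
    apply Complex.ext
    · simp
    · simp [← this]
  have hre0 : ∀ (N : ℕ) (x : Tor), 0 ≤ (fej f N x).re := fun N x =>
    (Complex.nonneg_iff.mp (fej_nonneg hf N x)).1
  have hcont : ∀ N : ℕ, Continuous (fun x : Tor => (fej f N x).re) := fun N =>
    Complex.continuous_re.comp (continuous_fej f N)
  have hintg : ∀ N : ℕ, Integrable (fun x : Tor => (fej f N x).re) AddCircle.haarAddCircle := by
    intro N
    exact (BoundedContinuousFunction.mkOfCompact ⟨_, hcont N⟩).integrable _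
  let M : ℕ → Measure Tor := fun N => AddCircle.haarAddCircle.withDensity
    (fun x => ENNReal.ofReal (fej f (N + 1) x).re)
  have hM1 : ∀ (N : ℕ) (m : ℤ), ∫ x, fourier m x ∂(M N) =
      (((Finset.Ico (0 : ℤ) (N + 1 : ℕ) ∩ Finset.Ico m ((N + 1 : ℕ) + m)).card : ℂ) /
        (N + 1 : ℕ)) * f m := by
    intro N m
    rw [← integral_fej_mul (N + 1) m]
    have hmeas : Measurable (fun x : Tor => ENNReal.ofReal (fej f (N + 1) x).re) :=
      (hcont (N + 1)).measurable.ennreal_ofReal
    rw [integral_withDensity_eq_integral_toReal_smul hmeas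
      (Filter.Eventually.of_forall (fun x => ENNReal.ofReal_lt_top))]
    refine integral_congr_ae (Filter.Eventually.of_forall (fun x => ?_))
    simp only
    rw [ENNReal.toReal_ofReal (hre0 _ _), Complex.real_smul, ← hreal, mul_comm]
  have hprob : ∀ N, IsProbabilityMeasure (M N) := by
    intro N
    constructor
    have h1 : M N Set.univ = ENNReal.ofReal (∫ x, (fej f (N + 1) x).re ∂AddCircle.haarAddCircle) := by
      rw [withDensity_apply _ MeasurableSet.univ, Measure.restrict_univ,
        ofReal_integral_eq_lintegral_ofReal (hintg _) (Filter.Eventually.of_forall (hre0 _))]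
    have h2 : ∫ x, (fej f (N + 1) x).re ∂AddCircle.haarAddCircle = 1 := by
      have h3 := integral_fej_mul (f := f) (N + 1) 0
      simp only [fourier_zero, one_mul, add_zero, Finset.inter_self, h0, mul_one] at h3
      rw [Int.card_Ico] at h3
      have h4 : ∫ x, fej f (N + 1) x ∂AddCircle.haarAddCircle =
          ((∫ x, (fej f (N + 1) x).re ∂AddCircle.haarAddCircle : ℝ) : ℂ) := by
        rw [← integral_complex_ofReal]
        exact integral_congr_ae (Filter.Eventually.of_forall (fun x => hreal _ x))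
      rw [h4] at h3
      have h5 : ((((N + 1 : ℕ) : ℤ) - 0).toNat : ℂ) / ((N + 1 : ℕ) : ℂ) = 1 := by
        rw [sub_zero, Int.toNat_natCast, div_self (by exact_mod_cast Nat.succ_ne_zero N)]
      rw [h5] at h3
      exact_mod_cast h3
    rw [h1, h2, ENNReal.ofReal_one]
  let P : ℕ → ProbabilityMeasure Tor := fun N => ⟨M N, hprob N⟩
  obtain ⟨ν, -, hν⟩ := isCompact_univ.exists_mapClusterPt (f := (atTop : Filter ℕ)) (u := P)
    (by simp)
  obtain ⟨U, hU, hUν⟩ := mapClusterPt_iff_ultrafilter.mp hν
  refine ⟨(ν : Measure Tor), inferInstance, fun n => ?_⟩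
  have h1 := (ProbabilityMeasure.tendsto_iff_forall_integral_rclike_tendsto ℂ).mp hUν
    (BoundedContinuousFunction.mkOfCompact (fourier n : C(Tor, ℂ)))
  have h2 : Tendsto (fun N : ℕ => ∫ x, fourier n x ∂(M N)) U (𝓝 (∫ x, fourier n x ∂(ν : Measure Tor))) := h1
  have h3 : Tendsto (fun N : ℕ => ∫ x, fourier n x ∂(M N)) atTop (𝓝 (f n)) := by
    simp only [hM1]
    have h4 := ((card_tendsto n).comp (tendsto_add_atTop_nat 1)).mul_const (f n)
    rw [one_mul] at h4
    exact h4
  exact tendsto_nhds_unique h2 (h3.mono_left hU)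

end Helper91.TTT
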