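import Mathlib
import Pool.Agent.Helper91.TTT.Herglotz
import Pool.Agent.Helper91.TTT.Chain

set_option autoImplicit false
open MeasureTheory Filter Topology Helper17 Helper17.FU
open scoped ComplexOrder ComplexConjugate ENNReal InnerProductSpace

/-! Wiener's lemma. -/

namespace Helper91.TTT

/-- the averaged character -/
noncomputable def DD (L : ℕ) (x : Tor) : ℂ :=
  (1 / (L : ℂ)) * ∑ j ∈ Finset.range L, fourier (j : ℤ) x

lemma fourier_natCast (j : ℕ) (x : Tor) : (fourier (j : ℤ) x : ℂ) = (fourier 1 x) ^ j := by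
  induction j with
  | zero => simp
  | succ j ih => rw [Nat.cast_succ, fourier_add, ih, pow_succ]

lemma norm_fourier_apply (n : ℤ) (x : Tor) : ‖(fourier n x : ℂ)‖ = 1 := by
  rw [fourier_apply]; exact Circle.norm_coe _

lemma DD_norm_le (L : ℕ) (x : Tor) : ‖DD L x‖ ≤ 1 := by
  unfold DD
  rw [norm_mul]
  rcases Nat.eq_zero_or_pos L with h | h
  · subst h; simp
  have hL : (0 : ℝ) < L := by exact_mod_cast h
  have h1 : ‖∑ j ∈ Finset.range L, (fourier (j : ℤ) x : ℂ)‖ ≤ L := by
    refine (norm_sum_le _ _).trans ?_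
    simp only [norm_fourier_apply]
    simp
  have h2 : ‖1 / (L : ℂ)‖ = 1 / L := by simp
  rw [h2]
  calc 1 / (L : ℝ) * _ ≤ 1 / (L : ℝ) * L := mul_le_mul_of_nonneg_left h1 (by positivity)
    _ = 1 := by field_simp

lemma DD_zero {L : ℕ} (hL : 0 < L) : DD L 0 = 1 := by
  unfold DD
  have : (L : ℂ) ≠ 0 := by exact_mod_cast hL.ne'
  simp only [fourier_eval_zero]
  simp [this]

lemma fourier_one_ne {x : Tor} (hx : x ≠ 0) : (fourier 1 x : ℂ) ≠ 1 := by
  intro h
  apply hx
  rw [fourier_one] at h
  have h1 : AddCircle.toCircle x = 1 := by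
    apply Circle.ext; rw [h]; simp
  have h2 : AddCircle.toCircle x = AddCircle.toCircle (0 : Tor) := by
    rw [h1, AddCircle.toCircle_zero]
  exact AddCircle.injective_toCircle one_ne_zero h2

lemma DD_tendsto (x : Tor) : Tendsto (fun L : ℕ => DD L x) atTop
    (𝓝 (Set.indicator ({0} : Set Tor) (fun _ => (1 : ℂ)) x)) := by
  by_cases hx : x = 0
  · subst hx
    rw [Set.indicator_of_mem (Set.mem_singleton _)]
    refine tendsto_const_nhds.congr' ?_
    filter_upwards [eventually_gt_atTop 0] with L hL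
    rw [DD_zero hL]
  · rw [Set.indicator_of_notMem (by simpa using hx)]
    have hz := fourier_one_ne hx
    set z : ℂ := fourier 1 x with hzdef
    have hz1 : ‖z‖ = 1 := norm_fourier_apply 1 x
    have hz0 : 0 < ‖z - 1‖ := norm_pos_iff.mpr (sub_ne_zero.mpr hz)
    have hb : ∀ L : ℕ, ‖DD L x‖ ≤ (2 / ‖z - 1‖) / L := by
      intro L
      unfold DD
      simp only [fourier_natCast]
      have h2 : ‖1 / (L : ℂ)‖ = 1 / L := by simp
      rw [← hzdef, geom_sum_eq hz, norm_mul, h2, norm_div]
      have h3 : ‖z ^ L - 1‖ ≤ 2 := by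
        refine (norm_sub_le _ _).trans ?_
        rw [norm_pow, hz1]; norm_num
      have h4 : ‖z ^ L - 1‖ / ‖z - 1‖ ≤ 2 / ‖z - 1‖ := div_le_div_of_nonneg_right h3 hz0.le
      calc 1 / (L : ℝ) * (‖z ^ L - 1‖ / ‖z - 1‖) ≤ 1 / (L : ℝ) * (2 / ‖z - 1‖) :=
            mul_le_mul_of_nonneg_left h4 (by positivity)
        _ = _ := by ring
    rw [tendsto_zero_iff_norm_tendsto_zero]
    exact squeeze_zero (fun _ => norm_nonneg _) hb (tendsto_const_div_atTop_nhds_zero_nat _)

lemma continuous_DD (L : ℕ) : Continuous (DD L) := by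
  unfold DD; fun_prop

lemma DD_sq (L : ℕ) (x : Tor) : ((‖DD L x‖ ^ 2 : ℝ) : ℂ) = (1 / (L : ℂ) ^ 2) *
    ∑ i ∈ Finset.range L, ∑ j ∈ Finset.range L, fourier ((i : ℤ) - j) x := by
  have h1 : ((‖DD L x‖ ^ 2 : ℝ) : ℂ) = DD L x * conj (DD L x) := by
    rw [Complex.mul_conj']; push_cast; rfl
  rw [h1]
  unfold DD
  rw [map_mul, map_sum]
  have h2 : conj (1 / (L : ℂ)) = 1 / (L : ℂ) := by simp
  rw [h2]
  have h3 : (1 / (L : ℂ) * ∑ j ∈ Finset.range L, (fourier (j : ℤ) x : ℂ)) *
      (1 / (L : ℂ) * ∑ j ∈ Finset.range L, conj (fourier (j : ℤ) x : ℂ)) = (1 / (L : ℂ) ^ 2) *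
      ((∑ j ∈ Finset.range L, (fourier (j : ℤ) x : ℂ)) *
        ∑ j ∈ Finset.range L, conj (fourier (j : ℤ) x : ℂ)) := by ring
  rw [h3, Finset.sum_mul_sum]
  congr 1
  refine Finset.sum_congr rfl (fun i _ => Finset.sum_congr rfl (fun j _ => ?_))
  rw [← fourier_neg, ← fourier_add, sub_eq_add_neg]

lemma integrable_cont (μ : Measure Tor) [IsFiniteMeasure μ] {g : Tor → ℂ} (hg : Continuous g) :
    Integrable g μ :=
  (BoundedContinuousFunction.mkOfCompact ⟨g, hg⟩).integrable _

lemma integrable_contR (μ : Measure Tor) [IsFiniteMeasure μ] {g : Tor → ℝ} (hg : Continuous g) :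
    Integrable g μ :=
  (BoundedContinuousFunction.mkOfCompact ⟨g, hg⟩).integrable _

/-- **Wiener's lemma**, for measures without atoms. -/
theorem wiener {G : Type*} [Group G] {φ : G → ℂ} (τ : G) (μ : Measure Tor)
    [IsProbabilityMeasure μ] (hμ : ∀ n : ℤ, ∫ x, fourier n x ∂μ = φ (τ ^ n))
    (hat : ∀ x : Tor, μ {x} = 0) :
    Tendsto (fun L : ℕ => WW φ τ L / (L : ℝ) ^ 2) atTop (𝓝 0) := by
  -- the double integral
  have hrepr : ∀ L : ℕ, WW φ τ L / (L : ℝ) ^ 2 = ∫ y, ∫ x, ‖DD L (x - y)‖ ^ 2 ∂μ ∂μ := by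
    intro L
    have h1 : ((WW φ τ L / (L : ℝ) ^ 2 : ℝ) : ℂ) =
        ((∫ y, ∫ x, ‖DD L (x - y)‖ ^ 2 ∂μ ∂μ : ℝ) : ℂ) := by
      rw [← integral_complex_ofReal]
      have h2 : ∀ y : Tor, ((∫ x, ‖DD L (x - y)‖ ^ 2 ∂μ : ℝ) : ℂ) = (1 / (L : ℂ) ^ 2) *
          ∑ i ∈ Finset.range L, ∑ j ∈ Finset.range L,
            φ (τ ^ ((i : ℤ) - j)) * conj (fourier ((i : ℤ) - j) y) := by
        intro y
        rw [← integral_complex_ofReal]
        simp only [DD_sq]
        rw [integral_const_mul, integral_finsetSum _ (fun i _ => integrable_finsetSum _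
          (fun j _ => integrable_cont μ (by fun_prop)))]
        congr 1
        refine Finset.sum_congr rfl (fun i _ => ?_)
        rw [integral_finsetSum _ (fun j _ => integrable_cont μ (by fun_prop))]
        refine Finset.sum_congr rfl (fun j _ => ?_)
        have h3 : ∀ x : Tor, (fourier ((i : ℤ) - j) (x - y) : ℂ) =
            fourier ((i : ℤ) - j) x * conj (fourier ((i : ℤ) - j) y) := by
          intro x
          rw [← fourier_neg]
          simp only [fourier_apply]
          rw [smul_sub, sub_eq_add_neg, AddCircle.toCircle_add, Circle.coe_mul, neg_smul]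
        simp only [h3]
        rw [integral_mul_const, hμ]
      simp only [h2]
      rw [integral_const_mul, integral_finsetSum _ (fun i _ => integrable_finsetSum _
          (fun j _ => integrable_cont μ (by fun_prop)))]
      unfold WW
      push_cast
      rw [div_eq_inv_mul, one_div]
      congr 1
      refine Finset.sum_congr rfl (fun i _ => ?_)
      rw [integral_finsetSum _ (fun j _ => integrable_cont μ (by fun_prop))]
      refine Finset.sum_congr rfl (fun j _ => ?_)
      rw [integral_const_mul, integral_conj, hμ, Complex.mul_conj']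
    exact_mod_cast h1
  have hinner : ∀ y : Tor, Tendsto (fun L : ℕ => ∫ x, ‖DD L (x - y)‖ ^ 2 ∂μ) atTop (𝓝 0) := by
    intro y
    have h1 : Tendsto (fun L : ℕ => ∫ x, ‖DD L (x - y)‖ ^ 2 ∂μ) atTop
        (𝓝 (∫ x, ‖Set.indicator ({0} : Set Tor) (fun _ => (1 : ℂ)) (x - y)‖ ^ 2 ∂μ)) := by
      refine tendsto_integral_of_dominated_convergence (fun _ => 1) ?_ (integrable_const _) ?_ ?_
      · intro L
        exact (((continuous_DD L).comp (continuous_id.sub continuous_const)).norm.pow 2).aestronglyMeasurable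
      · intro L
        refine Filter.Eventually.of_forall (fun x => ?_)
        rw [Real.norm_eq_abs, abs_of_nonneg (by positivity)]
        exact pow_le_one₀ (norm_nonneg _) (DD_norm_le _ _)
      · exact Filter.Eventually.of_forall (fun x => ((DD_tendsto (x - y)).norm.pow 2))
    have h2 : ∫ x, ‖Set.indicator ({0} : Set Tor) (fun _ => (1 : ℂ)) (x - y)‖ ^ 2 ∂μ = 0 := by
      rw [integral_eq_zero_of_ae]
      have h3 : ∀ᵐ x ∂μ, x ≠ y := by
        rw [ae_iff]
        simpa using hat y
      filter_upwards [h3] with x hx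
      rw [Set.indicator_of_notMem (by simpa [sub_eq_zero] using hx)]
      simp
    rw [h2] at h1
    exact h1
  simp only [hrepr]
  have h4 : Tendsto (fun L : ℕ => ∫ y, ∫ x, ‖DD L (x - y)‖ ^ 2 ∂μ ∂μ) atTop
      (𝓝 (∫ _y : Tor, (0 : ℝ) ∂μ)) := by
    refine tendsto_integral_of_dominated_convergence (fun _ => 1) ?_ (integrable_const _) ?_ ?_
    · intro L
      have h5 : Continuous (fun y : Tor => ∫ x, ‖DD L (x - y)‖ ^ 2 ∂μ) := by
        refine continuous_of_dominated (bound := fun _ => 1) ?_ ?_ (integrable_const _) ?_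
        · intro y
          exact (((continuous_DD L).comp (continuous_id.sub continuous_const)).norm.pow 2).aestronglyMeasurable
        · intro y
          refine Filter.Eventually.of_forall (fun x => ?_)
          rw [Real.norm_eq_abs, abs_of_nonneg (by positivity)]
          exact pow_le_one₀ (norm_nonneg _) (DD_norm_le _ _)
        · refine Filter.Eventually.of_forall (fun x => ?_)
          exact ((continuous_DD L).comp (continuous_const.sub continuous_id)).norm.pow 2
      exact h5.aestronglyMeasurable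
    · intro L
      refine Filter.Eventually.of_forall (fun y => ?_)
      rw [Real.norm_eq_abs, abs_of_nonneg (integral_nonneg (fun x => by positivity))]
      calc ∫ x, ‖DD L (x - y)‖ ^ 2 ∂μ ≤ ∫ _x : Tor, (1 : ℝ) ∂μ := by
            refine integral_mono ?_ (integrable_const _) (fun x => ?_)
            · exact integrable_contR μ
                (((continuous_DD L).comp (continuous_id.sub continuous_const)).norm.pow 2)
            · exact pow_le_one₀ (norm_nonneg _) (DD_norm_le _ _)
        _ = 1 := by simp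
    · exact Filter.Eventually.of_forall (fun y => hinner y)
  simpa using h4

end Helper91.TTT
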