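import Mathlib
import Pool.Agent.Helper91.TTT.Wiener

set_option autoImplicit false
open MeasureTheory Filter Topology Helper17 Helper17.FU
open scoped ComplexOrder ComplexConjugate ENNReal InnerProductSpace

/-! The case of a spectral measure with an atom. -/

namespace Helper91.TTT

lemma fourier_zsmul (n k : ℤ) (x : Tor) : (fourier n (k • x) : ℂ) = fourier (n * k) x := by
  simp only [fourier_apply, mul_smul]

lemma map_zsmul_eq {μ : Measure Tor} [IsProbabilityMeasure μ] (k : ℤ)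
    (h : ∀ n : ℤ, ∫ x, fourier (n * k) x ∂μ = ∫ x, fourier n x ∂μ) :
    μ.map (fun x => k • x) = μ := by
  have hcont : Continuous (fun x : Tor => k • x) := continuous_zsmul k
  have : IsProbabilityMeasure (μ.map (fun x : Tor => k • x)) :=
    Measure.isProbabilityMeasure_map hcont.measurable.aemeasurable
  apply measure_unique
  intro n
  rw [integral_map hcont.measurable.aemeasurable
    (fourier n).continuous.aestronglyMeasurable, ← h n]
  simp only [fourier_zsmul]

lemma meas_preimage {μ : Measure Tor} {k : ℤ} (h : μ.map (fun x => k • x) = μ)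
    {A : Set Tor} (hA : MeasurableSet A) : μ {x | k • x ∈ A} = μ A := by
  have hcont : Continuous (fun x : Tor => k • x) := continuous_zsmul k
  conv_rhs => rw [← h, Measure.map_apply hcont.measurable hA]
  rfl

/-- an atom forces positive mass on a group of roots of unity of order `6 ^ k - 1` -/
lemma atom_periodic {μ : Measure Tor} [IsProbabilityMeasure μ]
    (h6 : μ.map (fun x => (6 : ℤ) • x) = μ) {x0 : Tor} (hx0 : μ {x0} ≠ 0) :
    ∃ k : ℕ, 1 ≤ k ∧ μ {x | ((6 : ℤ) ^ k - 1) • x = 0} ≠ 0 := by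
  set c := μ {x0} with hc
  have hcpos : 0 < c := pos_iff_ne_zero.mpr hx0
  set T : Set Tor := {y | c ≤ μ {y}} with hT
  have hTfin : T.Finite := by
    refine Measure.finite_const_le_meas_of_disjoint_iUnion μ hcpos
      (fun y => measurableSet_singleton y) ?_ (measure_ne_top _ _)
    intro a b hab
    simpa using hab
  have hstep : ∀ y ∈ T, (6 : ℤ) • y ∈ T := by
    intro y hy
    show c ≤ μ {(6 : ℤ) • y}
    rw [← meas_preimage h6 (measurableSet_singleton _)]
    have hy' : c ≤ μ {y} := hy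
    exact hy'.trans (measure_mono (by intro z hz; rw [Set.mem_singleton_iff.mp hz]; rfl))
  have hpow : ∀ n : ℕ, ((6 : ℤ) ^ n) • x0 ∈ T := by
    intro n
    induction n with
    | zero =>
      rw [pow_zero, one_smul]
      show c ≤ μ {x0}
      exact le_rfl
    | succ n ih => rw [pow_succ', mul_smul]; exact hstep _ ih
  obtain ⟨i, j, hij, heq⟩ : ∃ i j : ℕ, i < j ∧ ((6 : ℤ) ^ i) • x0 = ((6 : ℤ) ^ j) • x0 := by
    by_contra hcon
    push Not at hcon
    have hinj : Function.Injective (fun n : ℕ => ((6 : ℤ) ^ n) • x0) := by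
      intro a b hab
      rcases lt_trichotomy a b with h | h | h
      · exact absurd hab (hcon a b h)
      · exact h
      · exact absurd hab.symm (hcon b a h)
    exact Set.infinite_of_injective_forall_mem hinj hpow hTfin
  refine ⟨j - i, by omega, ?_⟩
  set y := ((6 : ℤ) ^ i) • x0 with hy
  have hyT : c ≤ μ {y} := hpow i
  have hper : ((6 : ℤ) ^ (j - i) - 1) • y = 0 := by
    rw [sub_smul, one_smul, hy, ← mul_smul, ← pow_add, show j - i + i = j by omega, ← heq, sub_self]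
  have : μ {y} ≤ μ {x | ((6 : ℤ) ^ (j - i) - 1) • x = 0} :=
    measure_mono (by intro z hz; rw [Set.mem_singleton_iff.mp hz]; exact hper)
  exact (lt_of_lt_of_le hcpos (hyT.trans this)).ne'

variable {G : Type*} [Group G] {φ : G → ℂ}

/-- the isometry onto functions on the circle -/
lemma iso [Fact (PD φ)] (τ : G) (μ : Measure Tor)
    [IsProbabilityMeasure μ] (hμ : ∀ n : ℤ, ∫ x, fourier n x ∂μ = φ (τ ^ n))
    {ι : Type*} (s : Finset ι) (c : ι → ℂ) (e : ι → ℤ) :
    ‖∑ i ∈ s, c i • dl φ (τ ^ (e i))‖ ^ 2 = ∫ x, ‖∑ i ∈ s, c i * fourier (e i) x‖ ^ 2 ∂μ := by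
  have h1 : ((‖∑ i ∈ s, c i • dl φ (τ ^ (e i))‖ ^ 2 : ℝ) : ℂ) =
      ∑ i ∈ s, ∑ j ∈ s, conj (c i) * c j * φ (τ ^ (e j - e i)) := by
    have h2 : ((‖∑ i ∈ s, c i • dl φ (τ ^ (e i))‖ ^ 2 : ℝ) : ℂ) =
        ⟪∑ i ∈ s, c i • dl φ (τ ^ (e i)), ∑ i ∈ s, c i • dl φ (τ ^ (e i))⟫_ℂ := by
      rw [inner_self_eq_norm_sq_to_K]; push_cast; rfl
    rw [h2, sum_inner]
    refine Finset.sum_congr rfl (fun i _ => ?_)
    rw [inner_sum]
    refine Finset.sum_congr rfl (fun j _ => ?_)
    rw [inner_smul_left, inner_smul_right, inner_dl, ← zpow_neg, ← zpow_add,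
      show -e i + e j = e j - e i by ring]
    ring
  have h3 : ((∫ x, ‖∑ i ∈ s, c i * fourier (e i) x‖ ^ 2 ∂μ : ℝ) : ℂ) =
      ∑ i ∈ s, ∑ j ∈ s, conj (c i) * c j * φ (τ ^ (e j - e i)) := by
    rw [← integral_complex_ofReal]
    have h4 : ∀ x : Tor, ((‖∑ i ∈ s, c i * (fourier (e i) x : ℂ)‖ ^ 2 : ℝ) : ℂ) =
        ∑ i ∈ s, ∑ j ∈ s, conj (c i) * c j * fourier (e j - e i) x := by
      intro x
      have h5 : ((‖∑ i ∈ s, c i * (fourier (e i) x : ℂ)‖ ^ 2 : ℝ) : ℂ) =
          conj (∑ i ∈ s, c i * (fourier (e i) x : ℂ)) * ∑ i ∈ s, c i * (fourier (e i) x : ℂ) := by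
        rw [Complex.conj_mul']; push_cast; rfl
      rw [h5, map_sum, Finset.sum_mul_sum]
      refine Finset.sum_congr rfl (fun i _ => Finset.sum_congr rfl (fun j _ => ?_))
      rw [map_mul, ← fourier_neg, sub_eq_neg_add, fourier_add]
      ring
    simp only [h4]
    rw [integral_finsetSum _ (fun i _ => integrable_finsetSum _
          (fun j _ => integrable_cont μ (by fun_prop)))]
    refine Finset.sum_congr rfl (fun i _ => ?_)
    rw [integral_finsetSum _ (fun j _ => integrable_cont μ (by fun_prop))]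
    refine Finset.sum_congr rfl (fun j _ => ?_)
    rw [integral_const_mul, hμ]
  have h6 := h1.trans h3.symm
  exact_mod_cast h6

/-- the averages along an arithmetic progression -/
noncomputable def xx (φ : G → ℂ) (τ : G) (q : ℤ) (L : ℕ) : GV φ :=
  ∑ n ∈ Finset.range L, (1 / (L : ℂ)) • dl φ (τ ^ (q * (n : ℤ)))

lemma l1_xx (τ : G) (q : ℤ) (L : ℕ) : l1 (xx φ τ q L) ≤ 1 := by
  unfold xx
  refine (l1_sum_le _ _).trans ?_
  simp only [l1_smul_dl]
  rw [Finset.sum_const, Finset.card_range, nsmul_eq_mul]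
  rcases Nat.eq_zero_or_pos L with h | h
  · subst h; simp
  · have hL : (0 : ℝ) < L := by exact_mod_cast h
    have : ‖(1 / (L : ℂ))‖ = 1 / (L : ℝ) := by simp
    rw [this]
    apply le_of_eq
    field_simp

lemma sum_DD (q : ℤ) (L : ℕ) (x : Tor) :
    ∑ n ∈ Finset.range L, (1 / (L : ℂ)) * fourier (q * (n : ℤ)) x = DD L (q • x) := by
  unfold DD
  rw [Finset.mul_sum]
  refine Finset.sum_congr rfl (fun n _ => ?_)
  rw [fourier_zsmul, mul_comm (n : ℤ) q]

lemma norm_xx_sub [Fact (PD φ)] (τ : G) (μ : Measure Tor)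
    [IsProbabilityMeasure μ] (hμ : ∀ n : ℤ, ∫ x, fourier n x ∂μ = φ (τ ^ n)) (q q' : ℤ) (L : ℕ) :
    ‖xx φ τ q' L - xx φ τ q L‖ ^ 2 = ∫ x, ‖DD L (q' • x) - DD L (q • x)‖ ^ 2 ∂μ := by
  have h := iso (φ := φ) τ μ hμ (Finset.range L ×ˢ (Finset.univ : Finset Bool))
    (fun p => if p.2 then 1 / (L : ℂ) else - (1 / (L : ℂ)))
    (fun p => if p.2 then q' * (p.1 : ℤ) else q * (p.1 : ℤ))
  simp only [Finset.sum_product, Fintype.sum_bool, if_true, Bool.false_eq_true, if_false,
    neg_smul, neg_mul] at h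
  simp only [← sub_eq_add_neg, Finset.sum_sub_distrib, sum_DD] at h
  exact h

lemma DD_sub_tendsto (μ : Measure Tor) [IsProbabilityMeasure μ] (q q' : ℤ)
    (hae : {x : Tor | q' • x = 0} =ᵐ[μ] {x : Tor | q • x = 0}) :
    Tendsto (fun L : ℕ => ∫ x, ‖DD L (q' • x) - DD L (q • x)‖ ^ 2 ∂μ) atTop (𝓝 0) := by
  have h1 : Tendsto (fun L : ℕ => ∫ x, ‖DD L (q' • x) - DD L (q • x)‖ ^ 2 ∂μ) atTop
      (𝓝 (∫ x, ‖Set.indicator ({0} : Set Tor) (fun _ => (1 : ℂ)) (q' • x) -
        Set.indicator ({0} : Set Tor) (fun _ => (1 : ℂ)) (q • x)‖ ^ 2 ∂μ)) := by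
    refine tendsto_integral_of_dominated_convergence (fun _ => 4) ?_ (integrable_const _) ?_ ?_
    · intro L
      exact ((((continuous_DD L).comp (continuous_zsmul q')).sub
        ((continuous_DD L).comp (continuous_zsmul q))).norm.pow 2).aestronglyMeasurable
    · intro L
      refine Filter.Eventually.of_forall (fun x => ?_)
      rw [Real.norm_eq_abs, abs_of_nonneg (by positivity)]
      have h2 : ‖DD L (q' • x) - DD L (q • x)‖ ≤ 2 :=
        (norm_sub_le _ _).trans (by linarith [DD_norm_le L (q' • x), DD_norm_le L (q • x)])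
      calc ‖DD L (q' • x) - DD L (q • x)‖ ^ 2 ≤ 2 ^ 2 := pow_le_pow_left₀ (norm_nonneg _) h2 2
        _ = 4 := by norm_num
    · exact Filter.Eventually.of_forall (fun x =>
        (((DD_tendsto (q' • x)).sub (DD_tendsto (q • x))).norm.pow 2))
  have h2 : ∫ x, ‖Set.indicator ({0} : Set Tor) (fun _ => (1 : ℂ)) (q' • x) -
        Set.indicator ({0} : Set Tor) (fun _ => (1 : ℂ)) (q • x)‖ ^ 2 ∂μ = 0 := by
    rw [integral_eq_zero_of_ae]
    filter_upwards [hae] with x hx
    have hx' : (q' • x = 0) ↔ (q • x = 0) := by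
      have := congrArg (fun p : Prop => p) hx
      exact iff_of_eq this
    by_cases h : q • x = 0
    · rw [Set.indicator_of_mem (by simpa using hx'.mpr h), Set.indicator_of_mem (by simpa using h)]
      simp
    · rw [Set.indicator_of_notMem (by simpa using fun h' => h (hx'.mp h')),
        Set.indicator_of_notMem (by simpa using h)]
      simp
  rw [h2] at h1
  exact h1

/-- **An atom gives a nontrivial kernel.** -/
theorem atom_kernel (hφ : φ ∈ Set.extremePoints ℝ (TR G)) [Fact (PD φ)] (s2 s3 τ0 τ : G)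
    (h2 : s2 * τ * s2⁻¹ = τ ^ (2 : ℤ)) (h3 : s3 * τ * s3⁻¹ = τ ^ (3 : ℤ))
    (hgen : Subgroup.closure {s2, s3, τ0} = ⊤) (hcomm : ∀ j : ℤ, τ0 * τ ^ j * τ0⁻¹ = τ ^ j)
    (μ : Measure Tor) [IsProbabilityMeasure μ]
    (hμ : ∀ n : ℤ, ∫ x, fourier n x ∂μ = φ (τ ^ n)) {x0 : Tor} (hx0 : μ {x0} ≠ 0) :
    ∃ k : ℕ, 1 ≤ k ∧ φ (τ ^ ((6 : ℤ) ^ k - 1)) = 1 := by
  have hφ1 : φ 1 = 1 := hφ.1.1
  have hφc : ∀ g h : G, φ (h * g * h⁻¹) = φ g := hφ.1.2.1
  have hm2 : μ.map (fun x => (2 : ℤ) • x) = μ := by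
    apply map_zsmul_eq
    intro n
    rw [hμ, hμ, mul_comm, ← Helper17.FU.conj_pow h2, hφc]
  have hm3 : μ.map (fun x => (3 : ℤ) • x) = μ := by
    apply map_zsmul_eq
    intro n
    rw [hμ, hμ, mul_comm, ← conj_pow3 h3, hφc]
  have hm6 : μ.map (fun x => (6 : ℤ) • x) = μ := by
    apply map_zsmul_eq
    intro n
    rw [hμ, hμ, show n * 6 = 2 * (3 * n) by ring, ← Helper17.FU.conj_pow h2, hφc,
      ← conj_pow3 h3, hφc]
  obtain ⟨k, hk, hpos⟩ := atom_periodic hm6 hx0
  refine ⟨k, hk, ?_⟩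
  set q : ℤ := -((6 : ℤ) ^ k - 1) with hq
  have hq' : (6 : ℤ) ^ k - 1 = -q := by rw [hq, neg_neg]
  set E : Set Tor := {x | q • x = 0} with hE
  have hEpos : μ E ≠ 0 := by
    have : E = {x : Tor | ((6 : ℤ) ^ k - 1) • x = 0} := by
      ext x
      show q • x = 0 ↔ ((6 : ℤ) ^ k - 1) • x = 0
      rw [hq, neg_smul, neg_eq_zero]
    rw [this]; exact hpos
  have hEm : MeasurableSet E :=
    (isClosed_singleton.preimage (continuous_zsmul q)).measurableSet
  -- invariance of `E` up to null sets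
  have hae : ∀ c : ℤ, μ.map (fun x => c • x) = μ → {x : Tor | (c * q) • x = 0} =ᵐ[μ] E := by
    intro c hc
    have h4 : E ⊆ {x : Tor | (c * q) • x = 0} := by
      intro x hx
      show (c * q) • x = 0
      rw [mul_smul, show q • x = 0 from hx, smul_zero]
    have h5 : μ {x : Tor | (c * q) • x = 0} = μ E := by
      rw [← meas_preimage hc hEm]
      congr 1
      ext x
      show (c * q) • x = 0 ↔ q • (c • x) = 0
      rw [mul_comm, mul_smul]
    exact (ae_eq_of_subset_of_measure_ge h4 h5.le hEm.nullMeasurableSet (measure_ne_top _ _)).symm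
  have hnorm : ∀ c : ℤ, μ.map (fun x => c • x) = μ →
      Tendsto (fun L => ‖xx φ τ (c * q) L - xx φ τ q L‖) atTop (𝓝 0) := by
    intro c hc
    have h4 := DD_sub_tendsto μ q (c * q) (hae c hc)
    simp only [← norm_xx_sub (φ := φ) τ μ hμ] at h4
    have h5 := h4.sqrt
    simpa [Real.sqrt_sq (norm_nonneg _)] using h5
  -- conjugations
  have hconj : ∀ (s : G) (c : ℤ), (∀ j : ℤ, s * τ ^ j * s⁻¹ = τ ^ (c * j)) →
      ∀ L, Cm s (xx φ τ q L) = xx φ τ (c * q) L := by
    intro s c hs L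
    unfold xx
    rw [map_sum]
    refine Finset.sum_congr rfl (fun n _ => ?_)
    rw [map_smul, Cm_dl, hs, mul_assoc]
  have hinv : ∀ h : G, Tendsto (fun L => ‖Cm h (xx φ τ q L) - xx φ τ q L‖) atTop (𝓝 0) := by
    refine inv_all hφc (fun L => xx φ τ q L) {s2, s3, τ0} hgen ?_
    intro h hh
    simp only [Set.mem_insert_iff, Set.mem_singleton_iff] at hh
    rcases hh with rfl | rfl | rfl
    · simp only [hconj _ 2 (Helper17.FU.conj_pow h2)]
      exact hnorm 2 hm2
    · simp only [hconj _ 3 (conj_pow3 h3)]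
      exact hnorm 3 hm3
    · have e : ∀ L, Cm h (xx φ τ q L) - xx φ τ q L = 0 := by
        intro L
        have := hconj h 1 (by intro j; rw [one_mul]; exact hcomm j) L
        rw [this, one_mul, sub_self]
      simp only [e, norm_zero]
      exact tendsto_const_nhds
  have hweak := weak_limit hφ (fun L => xx φ τ q L) (fun L => l1_xx τ q L) hinv (τ ^ q)
  have hin : ∀ (L : ℕ) (m : ℤ), ⟪xx φ τ q L, dl φ (τ ^ m)⟫_ℂ =
      (1 / (L : ℂ)) * ∑ n ∈ Finset.range L, φ (τ ^ (m - q * (n : ℤ))) := by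
    intro L m
    unfold xx
    rw [sum_inner, Finset.mul_sum]
    refine Finset.sum_congr rfl (fun n _ => ?_)
    rw [inner_smul_left, inner_dl, ← zpow_neg, ← zpow_add, neg_add_eq_sub]
    simp
  -- the limit of the inner products with the unit
  have hlim1 : Tendsto (fun L => ⟪xx φ τ q L, dl φ 1⟫_ℂ) atTop (𝓝 ((μ.real E : ℝ) : ℂ)) := by
    have e : ∀ L : ℕ, ⟪xx φ τ q L, dl φ 1⟫_ℂ = ∫ x, DD L ((-q) • x) ∂μ := by
      intro L
      have h4 := hin L 0
      rw [zpow_zero] at h4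
      rw [h4]
      simp only [← sum_DD]
      rw [integral_finsetSum _ (fun j _ => integrable_cont μ (by fun_prop)), Finset.mul_sum]
      refine Finset.sum_congr rfl (fun n _ => ?_)
      rw [integral_const_mul, hμ, zero_sub, neg_mul_eq_neg_mul]
    simp only [e]
    have h5 : Tendsto (fun L : ℕ => ∫ x, DD L ((-q) • x) ∂μ) atTop
        (𝓝 (∫ x, Set.indicator ({0} : Set Tor) (fun _ => (1 : ℂ)) ((-q) • x) ∂μ)) := by
      refine tendsto_integral_of_dominated_convergence (fun _ => 1) ?_ (integrable_const _) ?_ ?_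
      · intro L
        exact ((continuous_DD L).comp (continuous_zsmul (-q))).aestronglyMeasurable
      · intro L
        exact Filter.Eventually.of_forall (fun x => DD_norm_le _ _)
      · exact Filter.Eventually.of_forall (fun x => DD_tendsto ((-q) • x))
    have h6 : ∫ x, Set.indicator ({0} : Set Tor) (fun _ => (1 : ℂ)) ((-q) • x) ∂μ =
        ((μ.real E : ℝ) : ℂ) := by
      have e1 : (fun x : Tor => Set.indicator ({0} : Set Tor) (fun _ => (1 : ℂ)) ((-q) • x)) =
          Set.indicator E (fun _ => (1 : ℂ)) := by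
        funext x
        by_cases h : q • x = 0
        · rw [Set.indicator_of_mem (show x ∈ E from h), Set.indicator_of_mem]
          rw [Set.mem_singleton_iff, neg_smul, h, neg_zero]
        · rw [Set.indicator_of_notMem (show x ∉ E from h), Set.indicator_of_notMem]
          rw [Set.mem_singleton_iff, neg_smul, neg_eq_zero]
          exact h
      rw [e1, integral_indicator hEm, setIntegral_const]
      simp
    rw [h6] at h5
    exact h5
  -- shifting the average
  have hshift : Tendsto (fun L => ⟪xx φ τ q L, dl φ (τ ^ q)⟫_ℂ - ⟪xx φ τ q L, dl φ 1⟫_ℂ) atTop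
      (𝓝 0) := by
    have hb : ∀ L : ℕ, ‖⟪xx φ τ q L, dl φ (τ ^ q)⟫_ℂ - ⟪xx φ τ q L, dl φ 1⟫_ℂ‖ ≤ 2 / (L : ℝ) := by
      intro L
      have h4 := hin L 0
      rw [zpow_zero] at h4
      rw [h4, hin L q, ← mul_sub]
      have h5 : ∑ n ∈ Finset.range L, φ (τ ^ (q - q * (n : ℤ))) -
          ∑ n ∈ Finset.range L, φ (τ ^ (0 - q * (n : ℤ))) =
          φ (τ ^ q) - φ (τ ^ (q - q * (L : ℤ))) := by
        have h6 := Finset.sum_range_sub' (fun n : ℕ => φ (τ ^ (q - q * (n : ℤ)))) L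
        rw [Nat.cast_zero, mul_zero, sub_zero] at h6
        rw [← h6, Finset.sum_sub_distrib]
        congr 1
        refine Finset.sum_congr rfl (fun n _ => ?_)
        congr 2
        push_cast
        ring
      rw [h5, norm_mul]
      have h7 : ∀ g : G, ‖φ g‖ ≤ 1 := by
        intro g
        have := pd_bound (Fact.out : PD φ) g
        rw [hφ1] at this
        simpa using this
      have h8 : ‖φ (τ ^ q) - φ (τ ^ (q - q * (L : ℤ)))‖ ≤ 2 :=
        (norm_sub_le _ _).trans (by linarith [h7 (τ ^ q), h7 (τ ^ (q - q * (L : ℤ)))])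
      have h9 : ‖1 / (L : ℂ)‖ = 1 / L := by simp
      rw [h9]
      calc 1 / (L : ℝ) * _ ≤ 1 / (L : ℝ) * 2 := mul_le_mul_of_nonneg_left h8 (by positivity)
        _ = 2 / L := by ring
    exact squeeze_zero_norm hb (tendsto_const_div 2)
  have hfin := hweak.sub hshift
  have e3 : ∀ L, (⟪xx φ τ q L, dl φ (τ ^ q)⟫_ℂ - ⟪xx φ τ q L, dl φ 1⟫_ℂ * φ (τ ^ q)) -
      (⟪xx φ τ q L, dl φ (τ ^ q)⟫_ℂ - ⟪xx φ τ q L, dl φ 1⟫_ℂ) =
      ⟪xx φ τ q L, dl φ 1⟫_ℂ * (1 - φ (τ ^ q)) := by intro L; ring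
  simp only [e3, sub_zero] at hfin
  have hfin2 := tendsto_nhds_unique hfin (hlim1.mul_const _)
  have hEreal : ((μ.real E : ℝ) : ℂ) ≠ 0 := by
    rw [Ne, Complex.ofReal_eq_zero, measureReal_eq_zero_iff]
    exact hEpos
  have h1 : φ (τ ^ q) = 1 := by
    rcases mul_eq_zero.mp hfin2.symm with h | h
    · exact absurd h hEreal
    · rw [sub_eq_zero] at h; exact h.symm
  rw [hq', zpow_neg, pd_herm (Fact.out : PD φ), h1, star_one]

end Helper91.TTT
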