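import Mathlib
import Pool.Agent.Helper17.FUErgodic

set_option autoImplicit false
open Filter Topology Helper17 Helper17.FU
open scoped ComplexOrder ComplexConjugate InnerProductSpace

/-! Nontrivial kernels and finite dimension. -/

namespace Helper91.TTT

lemma exists_period (M : ℕ) (hM : 0 < M) : ∃ a d : ℕ, 1 ≤ d ∧ (M : ℤ) ∣ 6 ^ a * (6 ^ d - 1) := by
  have : NeZero M := ⟨hM.ne'⟩
  obtain ⟨i, j, hij, heq⟩ := Finite.exists_ne_map_eq_of_infinite (fun n : ℕ => (6 : ZMod M) ^ n)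
  have key : ∀ i j : ℕ, i < j → (6 : ZMod M) ^ i = 6 ^ j →
      ∃ a d : ℕ, 1 ≤ d ∧ (M : ℤ) ∣ 6 ^ a * (6 ^ d - 1) := by
    intro i j hij heq
    refine ⟨i, j - i, by omega, ?_⟩
    rw [← ZMod.intCast_zmod_eq_zero_iff_dvd]
    push_cast
    rw [mul_sub, ← pow_add, show i + (j - i) = j by omega, ← heq]
    ring
  rcases Nat.lt_or_gt_of_ne hij with h | h
  · exact key i j h heq
  · exact key j i h heq.symm

lemma period_mul {M : ℕ} {a d : ℕ} (h : (M : ℤ) ∣ 6 ^ a * (6 ^ d - 1)) (t : ℕ) :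
    (M : ℤ) ∣ 6 ^ a * (6 ^ (d * t) - 1) := by
  have h1 : (6 : ℤ) ^ d - 1 ∣ 6 ^ (d * t) - 1 := by
    rw [pow_mul]
    simpa using sub_dvd_pow_sub_pow ((6 : ℤ) ^ d) 1 t
  exact h.trans (mul_dvd_mul_left _ h1)

variable {G : Type*} [Group G] {φ : G → ℂ}

lemma pow_six {τ : G} (h6 : ∀ j : ℤ, φ (τ ^ (6 * j)) = φ (τ ^ j)) (K : ℕ) (j : ℤ) :
    φ (τ ^ (6 ^ K * j)) = φ (τ ^ j) := by
  induction K with
  | zero => simp
  | succ K ih => rw [pow_succ', mul_assoc, h6, ih]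

/-- vanishing on one arithmetic progression forces vanishing everywhere -/
lemma vanish_all [Fact (PD φ)] (hφ1 : φ 1 = 1) {τ : G}
    (h6 : ∀ j : ℤ, φ (τ ^ (6 * j)) = φ (τ ^ j)) {n : ℤ} (hn : n ≠ 0)
    (hz : ∀ m : ℤ, m ≠ 0 → φ (τ ^ (n * m)) = 0) (j : ℤ) (hj : j ≠ 0) : φ (τ ^ j) = 0 := by
  by_contra hne
  obtain ⟨a, d, hd, hdvd⟩ := exists_period n.natAbs (Int.natAbs_pos.mpr hn)
  have hm : ∀ i : ℕ, ∃ m : ℤ, n * m = (6 ^ (a + d * i) - 6 ^ a) * j := by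
    intro i
    have h1 := period_mul hdvd i
    rw [Int.natCast_natAbs, abs_dvd] at h1
    have h2 : n ∣ (6 ^ (a + d * i) - 6 ^ a) * j := by
      have : ((6 : ℤ) ^ (a + d * i) - 6 ^ a) * j = (6 ^ a * (6 ^ (d * i) - 1)) * j := by
        rw [pow_add]; ring
      rw [this]
      exact h1.mul_right j
    obtain ⟨m, hm⟩ := h2
    exact ⟨m, hm.symm⟩
  choose m hm using hm
  set v : ℕ → GV φ := fun i => dl φ (τ ^ (-(n * m i))) with hv
  have horth : Orthonormal ℂ v := by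
    constructor
    · intro i; exact norm_dl hφ1 _
    · intro i l hil
      show ⟪v i, v l⟫_ℂ = 0
      rw [hv, inner_dl, ← zpow_neg, ← zpow_add]
      have e : - -(n * m i) + -(n * m l) = n * (m i - m l) := by ring
      rw [e]
      apply hz
      intro h0
      have h3 : m i = m l := by linarith
      have h4 : ((6 : ℤ) ^ (a + d * i) - 6 ^ a) * j = (6 ^ (a + d * l) - 6 ^ a) * j := by
        rw [← hm i, ← hm l, h3]
      have h5 := mul_right_cancel₀ hj h4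
      have h6 : (6 : ℤ) ^ (a + d * i) = 6 ^ (a + d * l) := by linarith
      have h7 : a + d * i = a + d * l := pow_right_injective₀ (by norm_num) (by norm_num) h6
      have h8 : d * i = d * l := by omega
      exact hil (Nat.eq_of_mul_eq_mul_left (by omega) h8)
  have hin : ∀ i, ⟪v i, dl φ (τ ^ (6 ^ a * j))⟫_ℂ = φ (τ ^ j) := by
    intro i
    rw [hv, inner_dl, ← zpow_neg, ← zpow_add]
    have e : - -(n * m i) + 6 ^ a * j = 6 ^ (a + d * i) * j := by rw [neg_neg, hm i]; ring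
    rw [e, pow_six h6]
  have hpos : 0 < ‖φ (τ ^ j)‖ := norm_pos_iff.mpr hne
  obtain ⟨N, hN⟩ := exists_nat_gt (1 / ‖φ (τ ^ j)‖ ^ 2)
  have hB := horth.sum_inner_products_le (x := dl φ (τ ^ (6 ^ a * j))) (s := Finset.range N)
  simp only [hin] at hB
  rw [norm_dl hφ1, Finset.sum_const, Finset.card_range, nsmul_eq_mul] at hB
  rw [div_lt_iff₀ (by positivity)] at hN
  linarith

/-- elements on which the trace equals one act trivially -/
lemma kernel_mul [Fact (PD φ)] (hφ1 : φ 1 = 1) {a : G} (ha : φ a = 1) (x : G) :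
    φ (a * x) = φ x := by
  have h1 : ‖dl φ a⁻¹ - dl φ 1‖ ^ 2 = 0 := by
    rw [norm_sub_sq (𝕜 := ℂ), norm_dl hφ1, norm_dl hφ1, inner_dl, inv_inv, mul_one, ha]
    norm_num
  have h2 : ‖dl φ a⁻¹ - dl φ 1‖ = 0 := pow_eq_zero_iff (two_ne_zero) |>.mp h1
  have h3 : ⟪dl φ a⁻¹ - dl φ 1, dl φ x⟫_ℂ = φ (a * x) - φ x := by
    rw [inner_sub_left, inner_dl, inner_dl, inv_inv, inv_one, one_mul]
  have h4 := norm_inner_le_norm (𝕜 := ℂ) (dl φ a⁻¹ - dl φ 1) (dl φ x)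
  rw [h2, zero_mul, h3] at h4
  have h5 : ‖φ (a * x) - φ x‖ = 0 := le_antisymm h4 (norm_nonneg _)
  exact sub_eq_zero.mp (norm_eq_zero.mp h5)

/-- the kernel of a trace -/
def kerφ (φ : G → ℂ) [Fact (PD φ)] (hφ1 : φ 1 = 1) : Subgroup G where
  carrier := {a | φ a = 1}
  one_mem' := hφ1
  mul_mem' := by
    intro a b ha hb
    show φ (a * b) = 1
    rw [kernel_mul hφ1 ha]; exact hb
  inv_mem' := by
    intro a ha
    show φ a⁻¹ = 1
    rw [pd_herm (Fact.out : PD φ), show φ a = 1 from ha, star_one]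

/-- a nontrivial kernel gives finite dimension -/
theorem fd_of_kernel [Fact (PD φ)] (hφ1 : φ 1 = 1) (hφc : ∀ g h : G, φ (h * g * h⁻¹) = φ g)
    (P τ : G) (hP : ∀ j : ℤ, P * τ ^ j * P⁻¹ = τ ^ (6 * j)) {M : ℤ} (hM : M ≠ 0)
    (hker : φ (τ ^ M) = 1) (T : Set G)
    (hT : ∀ n ∈ T, ∃ (K : ℕ) (m : ℤ), P ^ K * n * (P ^ K)⁻¹ = τ ^ m) :
    FiniteDimensional ℂ (Submodule.span ℂ {F : G → ℂ | ∃ n : G, n ∈ T ∧
      F = fun x => φ (n * x)}) := by
  have hPK : ∀ (K : ℕ) (j : ℤ), P ^ K * τ ^ j * (P ^ K)⁻¹ = τ ^ (6 ^ K * j) := fun K j =>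
    conj_iter hP K j
  obtain ⟨a0, d, hd, hdvd⟩ := exists_period M.natAbs (Int.natAbs_pos.mpr hM)
  have hfin : Set.Finite (Set.range (fun j : Fin M.natAbs => fun x : G => φ (τ ^ (j : ℕ) * x))) :=
    Set.finite_range _
  have hfd : FiniteDimensional ℂ (Submodule.span ℂ
    (Set.range (fun j : Fin M.natAbs => fun x : G => φ (τ ^ (j : ℕ) * x)))) :=
    FiniteDimensional.span_of_finite ℂ hfin
  refine Submodule.finiteDimensional_of_le (S₂ := Submodule.span ℂ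
    (Set.range (fun j : Fin M.natAbs => fun x : G => φ (τ ^ (j : ℕ) * x)))) ?_
  refine Submodule.span_mono ?_
  rintro F ⟨n, hn, rfl⟩
  obtain ⟨K, m, hKm⟩ := hT n hn
  -- a common exponent
  set t := K with ht
  have hKt : K ≤ d * t := by
    rw [ht]; exact Nat.le_mul_of_pos_left K (by omega)
  set m' : ℤ := 6 ^ (d * t - K) * m with hm'
  have hconj : P ^ (d * t) * n * (P ^ (d * t))⁻¹ = τ ^ m' := by
    have e : P ^ (d * t) = P ^ (d * t - K) * P ^ K := by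
      rw [← pow_add]; congr 1; omega
    rw [e]
    have e2 : P ^ (d * t - K) * P ^ K * n * (P ^ (d * t - K) * P ^ K)⁻¹ =
        P ^ (d * t - K) * (P ^ K * n * (P ^ K)⁻¹) * (P ^ (d * t - K))⁻¹ := by group
    rw [e2, hKm, hPK]
  set j : ℤ := m' % (M.natAbs : ℤ) with hj
  have hMpos : (0 : ℤ) < (M.natAbs : ℤ) := by
    exact_mod_cast Int.natAbs_pos.mpr hM
  have hj0 : 0 ≤ j := Int.emod_nonneg _ hMpos.ne'
  have hj1 : j < (M.natAbs : ℤ) := Int.emod_lt_of_pos _ hMpos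
  have hdiv : (M.natAbs : ℤ) ∣ 6 ^ a0 * (m' - 6 ^ (d * t) * j) := by
    have e : (6 : ℤ) ^ a0 * (m' - 6 ^ (d * t) * j) = 6 ^ a0 * (m' - j) -
        (6 ^ a0 * (6 ^ (d * t) - 1)) * j := by ring
    rw [e]
    refine dvd_sub (Dvd.dvd.mul_left ?_ _) ((period_mul hdvd t).mul_right j)
    exact Int.dvd_self_sub_emod
  obtain ⟨i, hi⟩ := hdiv
  have ha : φ (n * (τ ^ j)⁻¹) = 1 := by
    have e : P ^ (a0 + d * t) * (n * (τ ^ j)⁻¹) * (P ^ (a0 + d * t))⁻¹ =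
        τ ^ ((M.natAbs : ℤ) * i) := by
      rw [pow_add]
      have e2 : P ^ a0 * P ^ (d * t) * (n * (τ ^ j)⁻¹) * (P ^ a0 * P ^ (d * t))⁻¹ =
          (P ^ a0 * (P ^ (d * t) * n * (P ^ (d * t))⁻¹) * (P ^ a0)⁻¹) *
          (P ^ a0 * (P ^ (d * t) * τ ^ j * (P ^ (d * t))⁻¹) * (P ^ a0)⁻¹)⁻¹ := by group
      rw [e2, hconj, hPK, hPK, hPK, ← zpow_neg, ← zpow_add, ← hi]
      congr 1
      ring
    rw [← hφc (n * (τ ^ j)⁻¹) (P ^ (a0 + d * t)), e]
    have hmem : τ ^ M ∈ kerφ φ hφ1 := hker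
    have hmem2 : τ ^ ((M.natAbs : ℤ) * i) ∈ kerφ φ hφ1 := by
      rcases Int.natAbs_eq M with h | h
      · rw [zpow_mul, ← h]
        exact Subgroup.zpow_mem _ hmem i
      · have e3 : (M.natAbs : ℤ) * i = M * (-i) := by rw [h]; simp
        rw [e3, zpow_mul]
        exact Subgroup.zpow_mem _ hmem (-i)
    exact hmem2
  refine ⟨⟨j.toNat, ?_⟩, ?_⟩
  · have := Int.toNat_of_nonneg hj0
    omega
  · funext x
    show φ (τ ^ j.toNat * x) = φ (n * x)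
    have e : n * x = (n * (τ ^ j)⁻¹) * (τ ^ j * x) := by group
    have e2 : τ ^ j.toNat = τ ^ j := by
      rw [← zpow_natCast, Int.toNat_of_nonneg hj0]
    rw [e2]
    conv_rhs => rw [e]
    rw [kernel_mul hφ1 ha]

end Helper91.TTT
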