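import Mathlib
import Pool.Agent.Helper91.TTT.Atoms

set_option autoImplicit false
open Filter Topology Helper17 Helper17.FU
open scoped ComplexOrder ComplexConjugate InnerProductSpace

/-! Pullbacks of exotic traces. -/

namespace Helper91.TTT

variable {G : Type*} [Group G] {φ : G → ℂ}

lemma form_comb {ψ₁ ψ₂ : G → ℂ} (a b : ℂ) (h : ∀ g, φ g = a * ψ₁ g + b * ψ₂ g)
    (x y : G →₀ ℂ) : form φ x y = a * form ψ₁ x y + b * form ψ₂ x y := by
  unfold form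
  simp only [Finsupp.sum, h]
  rw [Finset.mul_sum, Finset.mul_sum, ← Finset.sum_add_distrib]
  refine Finset.sum_congr rfl (fun i _ => ?_)
  rw [Finset.mul_sum, Finset.mul_sum, ← Finset.sum_add_distrib]
  refine Finset.sum_congr rfl (fun j _ => ?_)
  ring

lemma form_bound {ψ : G → ℂ} (hψ : PD ψ) (h1 : ψ 1 = 1) (y : G →₀ ℂ) :
    ‖form ψ (Finsupp.single 1 1) y‖ ≤ Real.sqrt (form ψ y y).re := by
  have hF : Fact (PD ψ) := ⟨hψ⟩
  set y' : GV ψ := y with hy'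
  have h2 : form ψ (Finsupp.single 1 1) y = ⟪dl ψ 1, y'⟫_ℂ := rfl
  have h3 : (form ψ y y).re = ‖y'‖ ^ 2 := by
    have := inner_self_eq_norm_sq (𝕜 := ℂ) y'
    rw [← this]; rfl
  rw [h2, h3, Real.sqrt_sq (norm_nonneg _)]
  have h4 := norm_inner_le_norm (𝕜 := ℂ) (dl ψ 1) y'
  rwa [norm_dl h1, one_mul] at h4

/-- a criterion for extremality -/
lemma ext_criterion (hφ : φ ∈ TR G) [Fact (PD φ)]
    (h : ∀ g : G, ∃ x : ℕ → GV φ, (∀ ψ ∈ TR G, ∀ᶠ L : ℕ in atTop,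
      form ψ (Finsupp.single 1 1) (x L) = ψ g) ∧
      Tendsto (fun L => ‖x L - φ g • dl φ 1‖) atTop (𝓝 0)) :
    φ ∈ Set.extremePoints ℝ (TR G) := by
  refine ⟨hφ, ?_⟩
  intro ψ₁ h₁ ψ₂ h₂ hseg
  obtain ⟨a, b, ha, hb, hab, heq⟩ := hseg
  have hcomb : ∀ g, φ g = (a : ℂ) * ψ₁ g + (b : ℂ) * ψ₂ g := by
    intro g
    rw [← heq]
    simp only [Pi.add_apply, Pi.smul_apply, Complex.real_smul]
  funext g
  obtain ⟨x, hx1, hx2⟩ := h g
  have hbd : ∀ L, ‖form ψ₁ (Finsupp.single 1 1) (x L - φ g • dl φ 1)‖ ≤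
      Real.sqrt (a⁻¹) * ‖x L - φ g • dl φ 1‖ := by
    intro L
    set y : GV φ := x L - φ g • dl φ 1 with hy
    refine (form_bound h₁.2.2 h₁.1 y).trans ?_
    have h3 : (form φ y y).re = ‖y‖ ^ 2 := by
      have := inner_self_eq_norm_sq (𝕜 := ℂ) y
      rw [← this]; rfl
    have h4 : a * (form ψ₁ y y).re ≤ ‖y‖ ^ 2 := by
      rw [← h3, form_comb (a : ℂ) (b : ℂ) hcomb]
      rw [Complex.add_re, Complex.re_ofReal_mul, Complex.re_ofReal_mul]
      have h5 := (Complex.nonneg_iff.mp (form_self_nonneg h₂.2.2 y)).1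
      nlinarith
    rw [← Real.sqrt_sq (norm_nonneg y), ← Real.sqrt_mul (by positivity)]
    apply Real.sqrt_le_sqrt
    rw [inv_mul_eq_div, le_div_iff₀ ha, mul_comm]
    exact h4
  have hlim : Tendsto (fun L => form ψ₁ (Finsupp.single 1 1) (x L - φ g • dl φ 1)) atTop (𝓝 0) := by
    rw [tendsto_zero_iff_norm_tendsto_zero]
    refine squeeze_zero (fun _ => norm_nonneg _) hbd ?_
    simpa using hx2.const_mul (Real.sqrt a⁻¹)
  have hev : ∀ᶠ L : ℕ in atTop, form ψ₁ (Finsupp.single 1 1) (x L - φ g • dl φ 1) =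
      ψ₁ g - φ g := by
    filter_upwards [hx1 ψ₁ h₁] with L hL
    have h6 : form ψ₁ (Finsupp.single 1 1) (x L) =
        form ψ₁ (Finsupp.single 1 1) (x L - φ g • dl φ 1) +
        φ g * form ψ₁ (Finsupp.single 1 1) (dl φ 1) := by
      rw [← form_smul_right, ← form_add_right]
      congr 1
      exact (sub_add_cancel (x L) (φ g • dl φ 1)).symm
    have h7 : form ψ₁ (Finsupp.single 1 1) (dl φ 1) = 1 := by
      unfold dl
      rw [form_single]
      simp [h₁.1]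
    rw [h7, mul_one, hL] at h6
    rw [h6]; ring
  have := tendsto_nhds_unique (hlim.congr' hev) tendsto_const_nhds
  exact (sub_eq_zero.mp this.symm)

/-- small averages from small mean squares -/
lemma norm_xx_tendsto [Fact (PD φ)] (τ : G)
    (hW : Tendsto (fun L : ℕ => WW φ τ L / (L : ℝ) ^ 2) atTop (𝓝 0)) :
    Tendsto (fun L => ‖xx φ τ 1 L‖) atTop (𝓝 0) := by
  have hb : ∀ L : ℕ, ‖xx φ τ 1 L‖ ^ 2 ≤ Real.sqrt (WW φ τ L / (L : ℝ) ^ 2) := by
    intro L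
    rcases Nat.eq_zero_or_pos L with h | h
    · subst h
      have : xx φ τ 1 0 = 0 := by unfold xx; simp
      rw [this, norm_zero]
      simp
    have hL : (0 : ℝ) < L := by exact_mod_cast h
    have h1 : ((‖xx φ τ 1 L‖ ^ 2 : ℝ) : ℂ) = (1 / (L : ℂ) ^ 2) *
        ∑ i ∈ Finset.range L, ∑ j ∈ Finset.range L, φ (τ ^ ((j : ℤ) - i)) := by
      have h2 : ((‖xx φ τ 1 L‖ ^ 2 : ℝ) : ℂ) = ⟪xx φ τ 1 L, xx φ τ 1 L⟫_ℂ := by
        rw [inner_self_eq_norm_sq_to_K]; push_cast; rfl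
      rw [h2]
      unfold xx
      rw [sum_inner, Finset.mul_sum]
      refine Finset.sum_congr rfl (fun i _ => ?_)
      rw [inner_sum, Finset.mul_sum]
      refine Finset.sum_congr rfl (fun j _ => ?_)
      rw [inner_smul_left, inner_smul_right, inner_dl, ← zpow_neg, ← zpow_add]
      have e : -(1 * (i : ℤ)) + 1 * (j : ℤ) = (j : ℤ) - i := by ring
      rw [e]
      simp only [map_div₀, map_one, Complex.conj_natCast]
      ring
    have h3 : ‖xx φ τ 1 L‖ ^ 2 ≤ (1 / (L : ℝ) ^ 2) *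
        ∑ p ∈ Finset.range L ×ˢ Finset.range L, ‖φ (τ ^ ((p.1 : ℤ) - p.2))‖ := by
      have h4 : ‖((‖xx φ τ 1 L‖ ^ 2 : ℝ) : ℂ)‖ ≤ (1 / (L : ℝ) ^ 2) *
          ∑ p ∈ Finset.range L ×ˢ Finset.range L, ‖φ (τ ^ ((p.1 : ℤ) - p.2))‖ := by
        rw [h1, norm_mul]
        have h5 : ‖1 / (L : ℂ) ^ 2‖ = 1 / (L : ℝ) ^ 2 := by simp
        rw [h5]
        refine mul_le_mul_of_nonneg_left ?_ (by positivity)
        rw [Finset.sum_product_right]
        refine (norm_sum_le _ _).trans (Finset.sum_le_sum (fun i _ => norm_sum_le _ _))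
      rwa [Complex.norm_real, Real.norm_of_nonneg (by positivity)] at h4
    have h6 : (∑ p ∈ Finset.range L ×ˢ Finset.range L, ‖φ (τ ^ ((p.1 : ℤ) - p.2))‖) ^ 2 ≤
        (L : ℝ) ^ 2 * WW φ τ L := by
      have h7 := sq_sum_le_card_mul_sum_sq (s := Finset.range L ×ˢ Finset.range L)
        (f := fun p : ℕ × ℕ => ‖φ (τ ^ ((p.1 : ℤ) - p.2))‖)
      rw [Finset.card_product, Finset.card_range] at h7
      unfold WW
      rw [← Finset.sum_product' (f := fun i j : ℕ => ‖φ (τ ^ ((i : ℤ) - j))‖ ^ 2)]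
      push_cast at h7
      rw [sq (L : ℝ)]
      exact h7
    refine h3.trans (Real.le_sqrt_of_sq_le ?_)
    rw [mul_pow]
    calc (1 / (L : ℝ) ^ 2) ^ 2 * _ ≤ (1 / (L : ℝ) ^ 2) ^ 2 * ((L : ℝ) ^ 2 * WW φ τ L) :=
          mul_le_mul_of_nonneg_left h6 (by positivity)
      _ = WW φ τ L / (L : ℝ) ^ 2 := by field_simp
  have h8 := hW.sqrt.sqrt
  simp only [Real.sqrt_zero] at h8
  refine squeeze_zero (fun _ => norm_nonneg _) (fun L => ?_) h8
  exact Real.le_sqrt_of_sq_le (hb L)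

/-- elements which are not translations -/
lemma off_case (hφ : φ ∈ TR G) [Fact (PD φ)] {τ g : G}
    (hconj : ∀ n : ℕ, ∃ ρ : G, τ ^ (n : ℤ) * g = ρ * g * ρ⁻¹)
    (hW : Tendsto (fun L : ℕ => WW φ τ L / (L : ℝ) ^ 2) atTop (𝓝 0)) :
    φ g = 0 ∧ ∃ x : ℕ → GV φ, (∀ ψ ∈ TR G, ∀ᶠ L : ℕ in atTop,
      form ψ (Finsupp.single 1 1) (x L) = ψ g) ∧
      Tendsto (fun L => ‖x L - φ g • dl φ 1‖) atTop (𝓝 0) := by
  have hφ1 := hφ.1
  have hφc := hφ.2.1
  have hx0 := norm_xx_tendsto τ hW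
  set x : ℕ → GV φ := fun L => Rm g (xx φ τ 1 L) with hx
  have hxn : ∀ L, ‖x L‖ = ‖xx φ τ 1 L‖ := fun L => norm_Rm hφc g _
  have hform : ∀ ψ ∈ TR G, ∀ᶠ L : ℕ in atTop, form ψ (Finsupp.single 1 1) (x L) = ψ g := by
    intro ψ hψ
    filter_upwards [eventually_gt_atTop 0] with L hL
    have hF : Fact (PD ψ) := ⟨hψ.2.2⟩
    have hLc : (L : ℂ) ≠ 0 := by exact_mod_cast hL.ne'
    have h1 : x L = ∑ n ∈ Finset.range L, (1 / (L : ℂ)) • dl φ (τ ^ (1 * (n : ℤ)) * g) := by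
      rw [hx]
      show Rm g (xx φ τ 1 L) = _
      unfold xx
      rw [map_sum]
      refine Finset.sum_congr rfl (fun n _ => ?_)
      rw [map_smul, Rm_dl]
    have h2 : form ψ (Finsupp.single 1 1) (x L) = ⟪dl ψ 1, ∑ n ∈ Finset.range L,
        (1 / (L : ℂ)) • dl ψ (τ ^ (1 * (n : ℤ)) * g)⟫_ℂ := by
      rw [h1]; rfl
    rw [h2, inner_sum]
    have h3 : ∀ n ∈ Finset.range L, ⟪dl ψ 1, (1 / (L : ℂ)) • dl ψ (τ ^ (1 * (n : ℤ)) * g)⟫_ℂ =
        (1 / (L : ℂ)) * ψ g := by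
      intro n _
      obtain ⟨ρ, hρ⟩ := hconj n
      rw [inner_smul_right, inner_dl, inv_one, one_mul, one_mul, hρ, hψ.2.1]
    rw [Finset.sum_congr rfl h3, Finset.sum_const, Finset.card_range, nsmul_eq_mul]
    field_simp
  have hφg : φ g = 0 := by
    have hlim : Tendsto (fun L => form φ (Finsupp.single 1 1) (x L)) atTop (𝓝 0) := by
      rw [tendsto_zero_iff_norm_tendsto_zero]
      refine squeeze_zero (fun _ => norm_nonneg _) (fun L => ?_) hx0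
      have h4 : form φ (Finsupp.single 1 1) (x L) = ⟪dl φ 1, x L⟫_ℂ := rfl
      rw [h4, ← hxn]
      have h5 := norm_inner_le_norm (𝕜 := ℂ) (dl φ 1) (x L)
      rwa [norm_dl hφ1, one_mul] at h5
    exact (tendsto_nhds_unique (hlim.congr' (hform φ hφ)) tendsto_const_nhds).symm
  refine ⟨hφg, x, hform, ?_⟩
  simp only [hφg, zero_smul, sub_zero, hxn]
  exact hx0

/-- conjugates of powers of `τ` -/
lemma on_case (hφ : φ ∈ TR G) [Fact (PD φ)] (s2 s3 τ : G)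
    (h2 : s2 * τ * s2⁻¹ = τ ^ (2 : ℤ)) (h3 : s3 * τ * s3⁻¹ = τ ^ (3 : ℤ)) {g ρ : G} (m : ℤ)
    (hg : g = ρ * τ ^ m * ρ⁻¹)
    (hE : Tendsto (fun L => LevelSets.EE (rf φ τ m) L) atTop
      (𝓝 ((‖rf φ τ m 1‖ ^ 2 : ℝ) : ℂ))) :
    ∃ x : ℕ → GV φ, (∀ ψ ∈ TR G, ∀ᶠ L : ℕ in atTop,
      form ψ (Finsupp.single 1 1) (x L) = ψ g) ∧
      Tendsto (fun L => ‖x L - φ g • dl φ 1‖) atTop (𝓝 0) := by
  have h := avg_tendsto hφ s2 s3 τ h2 h3 m hE
  have hφg : φ g = φ (τ ^ m) := by rw [hg, hφ.2.1]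
  refine ⟨fun L => (1 / (L : ℂ) ^ 2) • (∑ p : Fin L × Fin L, dl φ (τ ^ (m * LevelSets.uu p))),
    ?_, ?_⟩
  · intro ψ hψ
    filter_upwards [eventually_gt_atTop 0] with L hL
    have hF : Fact (PD ψ) := ⟨hψ.2.2⟩
    have hLc : (L : ℂ) ≠ 0 := by exact_mod_cast hL.ne'
    have h4 : form ψ (Finsupp.single 1 1) ((1 / (L : ℂ) ^ 2) • (∑ p : Fin L × Fin L,
        dl φ (τ ^ (m * LevelSets.uu p)))) = ⟪dl ψ 1, (1 / (L : ℂ) ^ 2) •
          (∑ p : Fin L × Fin L, dl ψ (τ ^ (m * LevelSets.uu p)))⟫_ℂ := rfl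
    refine h4.trans ?_
    rw [inner_smul_right, inner_sum]
    have h5 : ∀ p ∈ (Finset.univ : Finset (Fin L × Fin L)),
        ⟪dl ψ 1, dl ψ (τ ^ (m * LevelSets.uu p))⟫_ℂ = ψ g := by
      intro p _
      rw [inner_dl, inv_one, one_mul, mul_comm, ← conj_vv h2 h3 p m, hψ.2.1, hg, hψ.2.1]
    rw [Finset.sum_congr rfl h5, Finset.sum_const, Finset.card_univ, Fintype.card_prod,
      Fintype.card_fin, nsmul_eq_mul]
    push_cast
    field_simp
  · rw [hφg]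
    have h6 := h.sqrt
    simpa [Real.sqrt_sq (norm_nonneg _)] using h6

/-- mean square of a progression of coefficients -/
lemma mean_small (hφ : φ ∈ TR G) [Fact (PD φ)] (τ g : G) (L : ℕ) :
    ∑ j ∈ Finset.range L, ‖φ (g * τ ^ j)‖ ^ 2 ≤ Real.sqrt (WW φ τ L) := by
  have := bessel_trace hφ.1 hφ.2.1 τ g 1 L
  simpa using this

/-- a common progression on which finitely many coefficients are small -/
lemma pick_small (hφ : φ ∈ TR G) [Fact (PD φ)] (τ : G)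
    (hW : ∀ m : ℤ, m ≠ 0 → Tendsto (fun L : ℕ => WW φ (τ ^ m) L / (L : ℝ) ^ 2) atTop (𝓝 0))
    (ks : Finset ℤ) (hks : ∀ k ∈ ks, k ≠ 0) :
    Tendsto (fun L : ℕ => (∑ k ∈ ks, ∑ q ∈ Finset.range L, ‖φ (τ ^ (k * ((q : ℤ) + 1)))‖ ^ 2) /
      (L : ℝ)) atTop (𝓝 0) := by
  have h1 : Tendsto (fun L : ℕ => ∑ k ∈ ks, Real.sqrt (WW φ (τ ^ k) L / (L : ℝ) ^ 2)) atTop
      (𝓝 (∑ k ∈ ks, 0)) := by
    refine tendsto_finsetSum _ (fun k hk => ?_)
    simpa using (hW k (hks k hk)).sqrt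
  rw [Finset.sum_const_zero] at h1
  refine squeeze_zero (fun L => by positivity) (fun L => ?_) h1
  rw [Finset.sum_div]
  refine Finset.sum_le_sum (fun k _ => ?_)
  rcases Nat.eq_zero_or_pos L with h | h
  · subst h; simp
  have hL : (0 : ℝ) < L := by exact_mod_cast h
  rw [Real.sqrt_div' _ (by positivity), Real.sqrt_sq hL.le]
  refine div_le_div_of_nonneg_right ?_ hL.le
  have h2 := mean_small hφ (τ ^ k) (τ ^ k) L
  refine le_trans (le_of_eq ?_) h2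
  refine Finset.sum_congr rfl (fun q _ => ?_)
  congr 3
  rw [← zpow_natCast, ← zpow_mul, ← zpow_add]
  congr 1
  ring

lemma sum_Icc_eq (f : ℕ → ℝ) (X : ℕ) :
    ∑ q ∈ Finset.range X, f (q + 1) = ∑ q ∈ Finset.Icc 1 X, f q := by
  induction X with
  | zero => simp
  | succ X ih => rw [Finset.sum_range_succ, ih, Finset.sum_Icc_succ_top (by omega)]

/-- the set of bad multipliers has density zero -/
lemma density_zero (hφ : φ ∈ TR G) [Fact (PD φ)] (τ : G)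
    (hW : ∀ m : ℤ, m ≠ 0 → Tendsto (fun L : ℕ => WW φ (τ ^ m) L / (L : ℝ) ^ 2) atTop (𝓝 0))
    (ks : Finset ℤ) (hks : ∀ k ∈ ks, k ≠ 0) (ε : ℝ) (hε : 0 < ε) :
    Tendsto (fun X : ℕ => (((Finset.Icc 1 X).filter
      (fun q : ℕ => ∃ k ∈ ks, ε ≤ ‖φ (τ ^ (k * (q : ℤ)))‖)).card : ℝ) / X) atTop (𝓝 0) := by
  have h1 := (pick_small hφ τ hW ks hks).const_mul ((ε ^ 2)⁻¹)
  rw [mul_zero] at h1
  refine squeeze_zero (fun X => by positivity) (fun X => ?_) h1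
  rw [← mul_div_assoc]
  refine div_le_div_of_nonneg_right ?_ (Nat.cast_nonneg X)
  rw [← div_eq_inv_mul, le_div_iff₀ (by positivity)]
  rw [Finset.sum_comm]
  have e : ∑ q ∈ Finset.range X, ∑ k ∈ ks, ‖φ (τ ^ (k * ((q : ℤ) + 1)))‖ ^ 2 =
      ∑ q ∈ Finset.Icc 1 X, ∑ k ∈ ks, ‖φ (τ ^ (k * (q : ℤ)))‖ ^ 2 := by
    rw [← sum_Icc_eq (fun q : ℕ => ∑ k ∈ ks, ‖φ (τ ^ (k * (q : ℤ)))‖ ^ 2) X]
    refine Finset.sum_congr rfl (fun q _ => ?_)
    push_cast
    rfl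
  rw [e]
  set S : Finset ℕ := (Finset.Icc 1 X).filter
      (fun q : ℕ => ∃ k ∈ ks, ε ≤ ‖φ (τ ^ (k * (q : ℤ)))‖) with hS
  calc (S.card : ℝ) * ε ^ 2 = ∑ q ∈ S, ε ^ 2 := by
        rw [Finset.sum_const, nsmul_eq_mul]
    _ ≤ ∑ q ∈ S, ∑ k ∈ ks, ‖φ (τ ^ (k * (q : ℤ)))‖ ^ 2 := by
        refine Finset.sum_le_sum (fun q hq => ?_)
        obtain ⟨k, hk, hkε⟩ := (Finset.mem_filter.mp hq).2
        exact (pow_le_pow_left₀ hε.le hkε 2).trans
          (Finset.single_le_sum (f := fun k => ‖φ (τ ^ (k * (q : ℤ)))‖ ^ 2)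
            (fun _ _ => by positivity) hk)
    _ ≤ _ := Finset.sum_le_sum_of_subset_of_nonneg (Finset.filter_subset _ _)
        (fun _ _ _ => by positivity)

/-- a multiplier making finitely many coefficients small -/
lemma exists_small (hφ : φ ∈ TR G) [Fact (PD φ)] (τ : G)
    (hW : ∀ m : ℤ, m ≠ 0 → Tendsto (fun L : ℕ => WW φ (τ ^ m) L / (L : ℝ) ^ 2) atTop (𝓝 0))
    (ks : Finset ℤ) (hks : ∀ k ∈ ks, k ≠ 0) (ε : ℝ) (hε : 0 < ε) :
    ∃ q : ℕ, 1 ≤ q ∧ ∀ k ∈ ks, ‖φ (τ ^ (k * (q : ℤ)))‖ < ε := by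
  by_contra hcon
  push Not at hcon
  have h1 := density_zero hφ τ hW ks hks ε hε
  have h2 : ∀ᶠ X : ℕ in atTop, (((Finset.Icc 1 X).filter
      (fun q : ℕ => ∃ k ∈ ks, ε ≤ ‖φ (τ ^ (k * (q : ℤ)))‖)).card : ℝ) / X = 1 := by
    filter_upwards [eventually_gt_atTop 0] with X hX
    have h3 : (Finset.Icc 1 X).filter
      (fun q : ℕ => ∃ k ∈ ks, ε ≤ ‖φ (τ ^ (k * (q : ℤ)))‖) = Finset.Icc 1 X := by
      rw [Finset.filter_eq_self]
      intro q hq
      exact hcon q (Finset.mem_Icc.mp hq).1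
    rw [h3, Nat.card_Icc, Nat.add_sub_cancel]
    have : (X : ℝ) ≠ 0 := by exact_mod_cast hX.ne'
    field_simp
  have h4 := tendsto_nhds_unique (h1.congr' h2) tendsto_const_nhds
  norm_num at h4

/-- small mean squares exclude finite dimension -/
lemma not_fd (hφ : φ ∈ TR G) [Fact (PD φ)] (τ : G)
    (hW : ∀ m : ℤ, m ≠ 0 → Tendsto (fun L : ℕ => WW φ (τ ^ m) L / (L : ℝ) ^ 2) atTop (𝓝 0))
    (T : Set G) (hT : ∀ n : ℤ, τ ^ n ∈ T) :
    ¬ FiniteDimensional ℂ (Submodule.span ℂ {F : G → ℂ | ∃ n : G, n ∈ T ∧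
      F = fun x => φ (n * x)}) := by
  intro hfd
  set V := Submodule.span ℂ {F : G → ℂ | ∃ n : G, n ∈ T ∧ F = fun x => φ (n * x)} with hV
  set R := Module.finrank ℂ V + 1 with hR
  obtain ⟨q, hq1, hq⟩ := exists_small hφ τ hW ((Finset.Icc (-(R : ℤ)) R).erase 0)
    (fun k hk => Finset.ne_of_mem_erase hk) (1 / R) (by positivity)
  set F : Fin R → V := fun i => ⟨fun x => φ (τ ^ ((i : ℤ) * q) * x),
    Submodule.subset_span ⟨_, hT _, rfl⟩⟩ with hF
  have hlin : LinearIndependent ℂ F := by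
    rw [Fintype.linearIndependent_iff]
    intro c hc
    -- evaluate
    have h1 : ∀ j : Fin R, ∑ i : Fin R, c i * φ (τ ^ (((i : ℤ) - j) * q)) = 0 := by
      intro j
      have h2 := congrArg (fun v : V => (v : G → ℂ) (τ ^ (-((j : ℤ) * q)))) hc
      simp only [Submodule.coe_sum, Submodule.coe_smul, Submodule.coe_zero, Finset.sum_apply,
        Pi.smul_apply, smul_eq_mul, Pi.zero_apply] at h2
      rw [← h2]
      refine Finset.sum_congr rfl (fun i _ => ?_)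
      congr 1
      rw [hF]
      show φ (τ ^ (((i : ℤ) - j) * q)) = φ (τ ^ ((i : ℤ) * q) * τ ^ (-((j : ℤ) * q)))
      rw [← zpow_add]
      congr 2
      ring
    set A : Matrix (Fin R) (Fin R) ℂ := fun j i => φ (τ ^ (((i : ℤ) - j) * q)) with hA
    have hdet : A.det ≠ 0 := by
      apply det_ne_zero_of_sum_row_lt_diag
      intro k
      have hkk : A k k = 1 := by rw [hA]; simp [hφ.1]
      rw [hkk, norm_one]
      calc ∑ j ∈ Finset.univ.erase k, ‖A k j‖ ≤ ∑ _j ∈ Finset.univ.erase k, (1 / R : ℝ) := by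
            refine Finset.sum_le_sum (fun j hj => ?_)
            refine (hq ((j : ℤ) - k) ?_).le
            rw [Finset.mem_erase, Finset.mem_Icc]
            have hne := Finset.ne_of_mem_erase hj
            have hne' : (j : ℕ) ≠ k := fun h => hne (Fin.ext h)
            have := j.2
            have := k.2
            omega
        _ = (R - 1 : ℝ) * (1 / R) := by
            rw [Finset.sum_const, Finset.card_erase_of_mem (Finset.mem_univ k), Finset.card_univ,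
              Fintype.card_fin, nsmul_eq_mul, Nat.cast_sub (by omega)]
            push_cast; ring
        _ < 1 := by
            have : (0 : ℝ) < R := by positivity
            field_simp
            linarith
    have h3 : A.mulVec c = 0 := by
      funext j
      rw [Matrix.mulVec, dotProduct, Pi.zero_apply, ← h1 j]
      refine Finset.sum_congr rfl (fun i _ => ?_)
      rw [mul_comm]
    have h4 := Matrix.eq_zero_of_mulVec_eq_zero hdet h3
    intro i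
    rw [h4]; rfl
  have h5 := hlin.fintype_card_le_finrank
  rw [Fintype.card_fin] at h5
  omega

end Helper91.TTT
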