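import Mathlib
import Pool.Agent.Helper17.FUGroup
import Pool.Agent.Helper17.FUTranslate
import Pool.Agent.Helper91.TTT.Local
import Pool.Agent.Helper91.TTT.FDim

set_option autoImplicit false
open Filter Topology Helper17 Helper17.FU Helper17.FUGroup
open scoped ComplexOrder ComplexConjugate InnerProductSpace

/-! Extreme traces on the group generated by `x ↦ 2x`, `x ↦ 3x`, `x ↦ x + 1`. -/

namespace Helper91.TTT

/-- the group -/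
abbrev GG (s2 s3 t : Equiv.Perm ℚ) : Subgroup (Equiv.Perm ℚ) := Subgroup.closure {s2, s3, t}

/-- translations -/
def IsTr {s2 s3 t : Equiv.Perm ℚ} (n : GG s2 s3 t) : Prop :=
  ∃ r : ℚ, ∀ x : ℚ, (n : Equiv.Perm ℚ) x = x + r

variable {s2 s3 t : Equiv.Perm ℚ}

lemma pow_six_apply (h2 : ∀ x : ℚ, s2 x = 2 * x) (h3 : ∀ x : ℚ, s3 x = 3 * x)
    {σ2 σ3 : GG s2 s3 t} (hσ2 : (σ2 : Equiv.Perm ℚ) = s2) (hσ3 : (σ3 : Equiv.Perm ℚ) = s3)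
    (K : ℕ) (x : ℚ) : (((σ2 * σ3) ^ K : GG s2 s3 t) : Equiv.Perm ℚ) x = 6 ^ K * x := by
  induction K generalizing x with
  | zero => simp
  | succ K ih =>
    rw [pow_succ, Subgroup.coe_mul, Equiv.Perm.mul_apply, ih, Subgroup.coe_mul,
      Equiv.Perm.mul_apply, hσ2, hσ3]
    rw [h2, h3, pow_succ]; ring

lemma trans_conj (h2 : ∀ x : ℚ, s2 x = 2 * x) (h3 : ∀ x : ℚ, s3 x = 3 * x)
    (ht : ∀ x : ℚ, t x = x + 1) {σ2 σ3 τ : GG s2 s3 t} (hσ2 : (σ2 : Equiv.Perm ℚ) = s2)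
    (hσ3 : (σ3 : Equiv.Perm ℚ) = s3) (hτ : (τ : Equiv.Perm ℚ) = t)
    (n : GG s2 s3 t) (hn : IsTr n) :
    ∃ (K : ℕ) (m : ℤ), (σ2 * σ3) ^ K * n * ((σ2 * σ3) ^ K)⁻¹ = τ ^ m := by
  obtain ⟨r, hr⟩ := hn
  obtain ⟨β, s, hβ, hS1, hS1', hSs, hx⟩ := aff_of_mem h2 h3 ht n.2
  have hs0 : s = r := by
    have h4 := hx 0
    rw [hr 0] at h4
    linarith
  obtain ⟨K, m, hm⟩ := hSs
  rw [hs0] at hm
  refine ⟨K, m, ?_⟩
  have : (σ2 * σ3) ^ K * n = τ ^ m * (σ2 * σ3) ^ K := by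
    apply Subtype.ext
    ext x
    rw [Subgroup.coe_mul, Subgroup.coe_mul, Equiv.Perm.mul_apply, Equiv.Perm.mul_apply,
      pow_six_apply h2 h3 hσ2 hσ3, pow_six_apply h2 h3 hσ2 hσ3,
      hr, Subgroup.coe_zpow, hτ, t_zpow ht]
    rw [← hm]; ring
  rw [this]; group

lemma trans_conj' (h2 : ∀ x : ℚ, s2 x = 2 * x) (h3 : ∀ x : ℚ, s3 x = 3 * x)
    (ht : ∀ x : ℚ, t x = x + 1) {τ : GG s2 s3 t} (hτ : (τ : Equiv.Perm ℚ) = t)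
    (n : GG s2 s3 t) (hn : IsTr n) :
    ∃ (m : ℤ) (σ : GG s2 s3 t), n = σ * τ ^ m * σ⁻¹ ∧ (n ≠ 1 → m ≠ 0) := by
  obtain ⟨σ2, σ3, τ', hσ2, hσ3, hτ', e2, e3, ecomm, hgen⟩ := relations h2 h3 ht
  obtain ⟨K, m, hm⟩ := trans_conj h2 h3 ht hσ2 hσ3 hτ n hn
  refine ⟨m, ((σ2 * σ3) ^ K)⁻¹, ?_, ?_⟩
  · rw [← hm]; group
  · intro hn1 h0
    rw [h0, zpow_zero] at hm
    apply hn1
    have : n = ((σ2 * σ3) ^ K)⁻¹ * ((σ2 * σ3) ^ K * n * ((σ2 * σ3) ^ K)⁻¹) * (σ2 * σ3) ^ K := by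
      group
    rw [this, hm]; group

/-- elements which are not translations -/
lemma off_conj (h2 : ∀ x : ℚ, s2 x = 2 * x) (h3 : ∀ x : ℚ, s3 x = 3 * x)
    (ht : ∀ x : ℚ, t x = x + 1) {τ : GG s2 s3 t} (hτ : (τ : Equiv.Perm ℚ) = t)
    (g : GG s2 s3 t) (hg : ¬ IsTr g) :
    ∃ D : ℤ, D ≠ 0 ∧ ∀ n : ℕ, ∃ ρ : GG s2 s3 t, (τ ^ D) ^ (n : ℤ) * g = ρ * g * ρ⁻¹ := by
  obtain ⟨β, s, hβ, hS1, hS1', hSs, hx⟩ := aff_of_mem h2 h3 ht g.2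
  have hβ1 : β ≠ 1 := by
    intro h
    apply hg
    exact ⟨s, fun x => by rw [hx, h, one_mul]⟩
  obtain ⟨K, n, hn⟩ := hS1
  set D : ℤ := 6 ^ K - n with hD
  have hDQ : (D : ℚ) = 6 ^ K * (1 - β) := by
    rw [hD]; push_cast; rw [← hn]; ring
  refine ⟨D, ?_, ?_⟩
  · intro h
    rw [h] at hDQ
    have h6 : (6 : ℚ) ^ K ≠ 0 := by positivity
    have : (1 - β) = 0 := by
      rcases mul_eq_zero.mp hDQ.symm with h' | h'
      · exact absurd h' h6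
      · exact h'
    exact hβ1 (by linarith)
  · intro i
    refine ⟨τ ^ ((i : ℤ) * 6 ^ K), ?_⟩
    rw [eq_mul_inv_iff_mul_eq, ← zpow_mul]
    apply Subtype.ext
    ext x
    simp only [Subgroup.coe_mul, Subgroup.coe_zpow, Equiv.Perm.mul_apply, hτ, t_zpow ht, hx]
    push_cast
    rw [hDQ]; ring

/-- the mean squares of an exotic extreme trace vanish -/
lemma ww_tendsto (h2 : ∀ x : ℚ, s2 x = 2 * x) (h3 : ∀ x : ℚ, s3 x = 3 * x)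
    (ht : ∀ x : ℚ, t x = x + 1) {τ : GG s2 s3 t} (hτ : (τ : Equiv.Perm ℚ) = t)
    {φ : GG s2 s3 t → ℂ} (hφ : φ ∈ Set.extremePoints ℝ (TR (GG s2 s3 t)))
    (hfd : ¬ FiniteDimensional ℂ (Submodule.span ℂ {F : GG s2 s3 t → ℂ | ∃ n : GG s2 s3 t,
      IsTr n ∧ F = fun x => φ (n * x)})) (m : ℤ) (hm : m ≠ 0) :
    Tendsto (fun L : ℕ => WW φ (τ ^ m) L / (L : ℝ) ^ 2) atTop (nhds 0) := by
  have hφ1 : φ 1 = 1 := hφ.1.1
  have hφc := hφ.1.2.1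
  have hFφ : Fact (PD φ) := ⟨hφ.1.2.2⟩
  obtain ⟨σ2, σ3, τ', hσ2, hσ3, hτ', e2, e3, ecomm, hgen⟩ := relations h2 h3 ht
  have hττ' : τ' = τ := Subtype.ext (by rw [hτ', hτ])
  rw [hττ'] at e2 e3 hgen
  have hP : ∀ j : ℤ, (σ2 * σ3) * τ ^ j * (σ2 * σ3)⁻¹ = τ ^ (6 * j) := by
    intro j
    have e : (σ2 * σ3) * τ ^ j * (σ2 * σ3)⁻¹ = σ2 * (σ3 * τ ^ j * σ3⁻¹) * σ2⁻¹ := by group
    rw [e, conj_pow3 e3, Helper17.FU.conj_pow e2]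
    congr 1; ring
  have hs2 : σ2 * τ ^ m * σ2⁻¹ = (τ ^ m) ^ (2 : ℤ) := by
    rw [Helper17.FU.conj_pow e2, ← zpow_mul, mul_comm]
  have hs3 : σ3 * τ ^ m * σ3⁻¹ = (τ ^ m) ^ (3 : ℤ) := by
    rw [conj_pow3 e3, ← zpow_mul, mul_comm]
  obtain ⟨μ, hμp, hμ⟩ := herglotz (rf_pdz (φ := φ) (τ ^ m) 1)
    (by unfold rf; simp [hφ1])
  have hμ' : ∀ n : ℤ, ∫ x, fourier n x ∂μ = φ ((τ ^ m) ^ n) := by
    intro n
    rw [hμ n]; unfold rf; rw [one_mul]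
  by_cases hat : ∀ x : Tor, μ {x} = 0
  · exact wiener (τ ^ m) μ hμ' hat
  · exfalso
    push Not at hat
    obtain ⟨x0, hx0⟩ := hat
    obtain ⟨k, hk, hker⟩ := atom_kernel hφ σ2 σ3 τ (τ ^ m) hs2 hs3 hgen
      (by intro j; rw [← zpow_mul]; group) μ hμ' hx0
    apply hfd
    have hk6 : (6 : ℤ) ^ k - 1 ≠ 0 := by
      have : (6 : ℤ) ^ 1 ≤ 6 ^ k := pow_le_pow_right₀ (by norm_num) hk
      omega
    rw [← zpow_mul] at hker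
    exact fd_of_kernel hφ1 hφc (σ2 * σ3) τ hP (mul_ne_zero hm hk6) hker
      {n | IsTr n} (fun n hn => trans_conj h2 h3 ht hσ2 hσ3 hτ n hn)

/-- pullbacks of exotic traces are exotic -/
theorem pullback (h2 : ∀ x : ℚ, s2 x = 2 * x) (h3 : ∀ x : ℚ, s3 x = 3 * x)
    (ht : ∀ x : ℚ, t x = x + 1) {τ : GG s2 s3 t} (hτ : (τ : Equiv.Perm ℚ) = t)
    {φ : GG s2 s3 t → ℂ} (hφ : φ ∈ Set.extremePoints ℝ (TR (GG s2 s3 t)))
    (hΔ : φ ≠ Set.indicator ({1} : Set (GG s2 s3 t)) (fun _ => (1 : ℂ)))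
    (hfd : ¬ FiniteDimensional ℂ (Submodule.span ℂ {F : GG s2 s3 t → ℂ | ∃ n : GG s2 s3 t,
      IsTr n ∧ F = fun x => φ (n * x)}))
    (θ : GG s2 s3 t →* GG s2 s3 t) {q : ℤ} (hq : q ≠ 0) (hθ : θ τ = τ ^ q) :
    (fun g => φ (θ g)) ∈ Set.extremePoints ℝ (TR (GG s2 s3 t)) ∧
    (fun g => φ (θ g)) ≠ Set.indicator ({1} : Set (GG s2 s3 t)) (fun _ => (1 : ℂ)) ∧
    ¬ FiniteDimensional ℂ (Submodule.span ℂ {F : GG s2 s3 t → ℂ | ∃ n : GG s2 s3 t,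
      IsTr n ∧ F = fun x => (fun g => φ (θ g)) (n * x)}) := by
  have hFφ : Fact (PD φ) := ⟨hφ.1.2.2⟩
  obtain ⟨σ2, σ3, τ', hσ2, hσ3, hτ', e2, e3, ecomm, hgen⟩ := relations h2 h3 ht
  have hττ' : τ' = τ := Subtype.ext (by rw [hτ', hτ])
  rw [hττ'] at e2 e3 hgen
  have hθm : ∀ m : ℤ, θ (τ ^ m) = τ ^ (q * m) := by
    intro m; rw [map_zpow, hθ, zpow_mul]
  set φ' : GG s2 s3 t → ℂ := fun g => φ (θ g) with hφ'
  have hT : φ' ∈ TR (GG s2 s3 t) := by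
    refine ⟨?_, ?_, ?_⟩
    · show φ (θ 1) = 1
      rw [map_one]; exact hφ.1.1
    · intro g h
      show φ (θ (h * g * h⁻¹)) = φ (θ g)
      rw [map_mul, map_mul, map_inv]; exact hφ.1.2.1 _ _
    · exact pd_comp hφ.1.2.2 θ
  have hFφ' : Fact (PD φ') := ⟨hT.2.2⟩
  have hW := ww_tendsto h2 h3 ht hτ hφ hfd
  have hWeq : ∀ (m : ℤ) (L : ℕ), WW φ' (τ ^ m) L = WW φ (τ ^ (q * m)) L := by
    intro m L
    unfold WW
    refine Finset.sum_congr rfl (fun i _ => Finset.sum_congr rfl (fun j _ => ?_))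
    show ‖φ (θ ((τ ^ m) ^ ((i : ℤ) - j)))‖ ^ 2 = _
    rw [map_zpow, hθm]
  have hW' : ∀ m : ℤ, m ≠ 0 →
      Tendsto (fun L : ℕ => WW φ' (τ ^ m) L / (L : ℝ) ^ 2) atTop (nhds 0) := by
    intro m hm
    simp only [hWeq]
    exact hW (q * m) (mul_ne_zero hq hm)
  refine ⟨?_, ?_, ?_⟩
  · refine ext_criterion hT (fun g => ?_)
    by_cases hg : IsTr g
    · obtain ⟨m, σ, hσ, -⟩ := trans_conj' h2 h3 ht hτ g hg
      refine on_case hT σ2 σ3 τ e2 e3 m hσ ?_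
      have e : rf φ' τ m = rf φ τ (q * m) := by
        funext j
        unfold rf
        show φ (θ (τ ^ (m * j))) = _
        rw [hθm, mul_assoc]
      rw [e]
      exact ergodic_part hφ σ2 σ3 τ e2 e3 ecomm hgen (q * m)
    · obtain ⟨D, hD, hconj⟩ := off_conj h2 h3 ht hτ g hg
      exact (off_case hT hconj (hW' D hD)).2
  · intro h
    apply hΔ
    refine eq_indicator h2 h3 ht φ hφ.1 τ hτ ?_
    have hf6 : ∀ j : ℤ, φ (τ ^ (6 * j)) = φ (τ ^ j) := by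
      intro j
      rw [show (6 : ℤ) * j = 2 * (3 * j) by ring, ← Helper17.FU.conj_pow e2, hφ.1.2.1,
        ← conj_pow3 e3, hφ.1.2.1]
    refine vanish_all hφ.1.1 hf6 hq ?_
    intro m hm
    have h4 := congrFun h (τ ^ m)
    have h5 : τ ^ m ≠ 1 := by
      intro h6
      have h7 := congrArg (fun g : GG s2 s3 t => (g : Equiv.Perm ℚ) 0) h6
      simp only [Subgroup.coe_zpow, hτ, t_zpow ht, Subgroup.coe_one, Equiv.Perm.one_apply,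
        zero_add] at h7
      exact hm (by exact_mod_cast h7)
    rw [Set.indicator_of_notMem (by simpa using h5)] at h4
    rw [← hθm]
    exact h4
  · refine not_fd hT τ hW' {n | IsTr n} (fun n => ⟨n, fun x => ?_⟩)
    rw [Subgroup.coe_zpow, hτ, t_zpow ht]

/-- exotic traces vanish off the translations -/
lemma exotic_off (h2 : ∀ x : ℚ, s2 x = 2 * x) (h3 : ∀ x : ℚ, s3 x = 3 * x)
    (ht : ∀ x : ℚ, t x = x + 1) {φ : GG s2 s3 t → ℂ}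
    (hφ : φ ∈ Set.extremePoints ℝ (TR (GG s2 s3 t)))
    (hfd : ¬ FiniteDimensional ℂ (Submodule.span ℂ {F : GG s2 s3 t → ℂ | ∃ n : GG s2 s3 t,
      IsTr n ∧ F = fun x => φ (n * x)})) (g : GG s2 s3 t) (hg : ¬ IsTr g) : φ g = 0 := by
  have hFφ : Fact (PD φ) := ⟨hφ.1.2.2⟩
  obtain ⟨σ2, σ3, τ, hσ2, hσ3, hτ, e2, e3, ecomm, hgen⟩ := relations h2 h3 ht
  obtain ⟨D, hD, hconj⟩ := off_conj h2 h3 ht hτ g hg
  exact (off_case hφ.1 hconj (ww_tendsto h2 h3 ht hτ hφ hfd D hD)).1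

end Helper91.TTT
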